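import Pool.Agent.H60.IACR.Flat

/-!
# The Euler genus of every rotation system of the explicit graph is at least ten
-/

open Finset Module

namespace Pool.Agent.H60.IACR

variable {rot : Equiv.Perm Dt} {idx : Dt → ℕ}

lemma vec_bb (d : ℕ) (p : Bool) (i : ℕ) (n : Fin d) :
    vec d (bb p i) n = bF p * vec d i n := by
  cases p
  · simp [bb, bF, vec]
  · simp [bb, bF]

lemma vec_two (i n : Fin 12) : vec 12 (2 ^ i.val) n = if n = i then 1 else 0 := by
  simp only [vec, Nat.testBit_two_pow]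
  by_cases h : n = i
  · simp [h]
  · have : ¬ (i.val = n.val) := fun h' => h (Fin.ext h'.symm)
    simp [h, this]

lemma row_eq {m b c : Fin 12} {p q e : Bool} {t0 tE : ℕ} {t : Fin 12 → F2} (hbc : b ≠ c)
    (h0 : ∀ n, cA m n + cC m n + cS m n = vec 12 t0 n)
    (hE : ∀ n, cA m n + cB m n = vec 12 tE n)
    (hb : t b = bF p) (hc : t c = bF q) (hz : ∀ n, n ≠ b → n ≠ c → t n = 0) :
    (fun n => (cA m n + cC m n + cS m n) + bF e * (cA m n + cB m n) + t n) =
      vec 12 (t0 ^^^ bb e tE ^^^ (bb p (2 ^ b.val) ^^^ bb q (2 ^ c.val))) := by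
  ext n
  rw [vec_xor, vec_xor, vec_xor]
  simp only [Pi.add_apply]
  rw [vec_bb, vec_bb, vec_bb, vec_two, vec_two, h0, hE]
  congr 1
  by_cases h1 : n = b
  · subst h1
    simp [hb, hbc]
  · by_cases h2 : n = c
    · subst h2
      simp [hc, h1]
    · simp [h1, h2, hz n h1 h2]

/-- a flat layer gives rank at least ten -/
theorem flat_rank (hi : IsIdx rot sr idx) (h0 : ∀ i j, idx (i, j, 0) = 0)
    (h9 : ∀ k, idx (0, p0 k, 3) = 0) (i0 : Fin 10) (e : Bool)
    (he : ∀ j, lt2 (idx (i0, j, 2)) (idx (i0, j, 1)) = bF e) :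
    10 ≤ finrank F2 (Submodule.span F2 (Set.range fun m : Fin 12 => (fun n : Fin 12 =>
      Jf sr orr idx (ef (zr i0 m) (zs i0 m)) (ef (zr i0 n) (zs i0 n))))) := by
  have hJ : ∀ m : Fin 12, (fun n : Fin 12 =>
      Jf sr orr idx (ef (zr i0 m) (zs i0 m)) (ef (zr i0 n) (zs i0 n))) =
      fun n => (cA m n + cC m n + cS m n) + bF e * (cA m n + cB m n) + tt idx (pb m) (pb n) := by
    intro m; ext n; exact J_flat hi h0 h9 i0 (bF e) he m n
  rw [show (fun m : Fin 12 => (fun n : Fin 12 =>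
      Jf sr orr idx (ef (zr i0 m) (zs i0 m)) (ef (zr i0 n) (zs i0 n)))) = _ from funext hJ]
  have hzz : ∀ (m b c : Fin 12), (∀ n, n ≠ b → n ≠ c → n = m ∨ wd (pb m) ≠ wd (pb n)) →
      ∀ n, n ≠ b → n ≠ c → tt idx (pb m) (pb n) = 0 := by
    intro m b c h n h1 h2
    rcases h n h1 h2 with h3 | h3
    · rw [h3]; exact tt_self _
    · exact tt_zero h3
  set x1 := tB idx 7 11
  set y1 := tB idx 7 15
  set z1 := tB idx 11 15
  set x2 := tB idx 3 9
  set y2 := tB idx 3 13
  set z2 := tB idx 9 13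
  set x3 := tB idx 5 12
  set y3 := tB idx 5 16
  set z3 := tB idx 12 16
  set u := tB idx 6 8
  have t1 : tr x1 y1 z1 = true := tr_tB hi (by decide) (by decide) (by decide) (by decide)
    (by decide)
  have t2 : tr x2 y2 z2 = true := tr_tB hi (by decide) (by decide) (by decide) (by decide)
    (by decide)
  have t3 : tr x3 y3 z3 = true := tr_tB hi (by decide) (by decide) (by decide) (by decide)
    (by decide)
  have hck := table_check e x1 y1 z1 t1 x2 y2 z2 t2 x3 y3 z3 t3 u
  refine hck.trans ((elim_le 12 12 _ le_rfl).trans ?_)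
  apply Submodule.finrank_mono
  unfold spanL
  rw [Submodule.span_le]
  rintro v ⟨r, hr, rfl⟩
  apply Submodule.subset_span
  simp only [rowsL, List.mem_cons, List.not_mem_nil, or_false] at hr
  have d0 : ∀ m n, cA m n + cC m n + cS m n =
      vec 12 ((![1422, 2460, 312, 503, 422, 2308, 1928, 2331, 63, 1088, 65, 162] :
        Fin 12 → ℕ) m) n := by decide +kernel
  have dE : ∀ m n, cA m n + cB m n =
      vec 12 ((![6, 5, 3, 48, 40, 24, 384, 320, 192, 1024, 512, 0] : Fin 12 → ℕ) m) n := by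
    decide +kernel
  rcases hr with rfl | rfl | rfl | rfl | rfl | rfl | rfl | rfl | rfl | rfl | rfl | rfl
  · exact ⟨0, row_eq (m := 0) (b := 1) (c := 2) (p := x1) (q := y1) (by decide) (d0 0) (dE 0)
      (tt_eq _ _ (by decide)) (tt_eq _ _ (by decide)) (hzz 0 1 2 (by decide))⟩
  · exact ⟨1, row_eq (m := 1) (b := 0) (c := 2) (p := !x1) (q := z1) (by decide) (d0 1) (dE 1)
      (tt_eq_not hi (by decide) (by decide)) (tt_eq _ _ (by decide)) (hzz 1 0 2 (by decide))⟩
  · exact ⟨2, row_eq (m := 2) (b := 0) (c := 1) (p := !y1) (q := !z1) (by decide) (d0 2) (dE 2)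
      (tt_eq_not hi (by decide) (by decide)) (tt_eq_not hi (by decide) (by decide))
      (hzz 2 0 1 (by decide))⟩
  · exact ⟨3, row_eq (m := 3) (b := 4) (c := 5) (p := x2) (q := y2) (by decide) (d0 3) (dE 3)
      (tt_eq _ _ (by decide)) (tt_eq _ _ (by decide)) (hzz 3 4 5 (by decide))⟩
  · exact ⟨4, row_eq (m := 4) (b := 3) (c := 5) (p := !x2) (q := z2) (by decide) (d0 4) (dE 4)
      (tt_eq_not hi (by decide) (by decide)) (tt_eq _ _ (by decide)) (hzz 4 3 5 (by decide))⟩
  · exact ⟨5, row_eq (m := 5) (b := 3) (c := 4) (p := !y2) (q := !z2) (by decide) (d0 5) (dE 5)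
      (tt_eq_not hi (by decide) (by decide)) (tt_eq_not hi (by decide) (by decide))
      (hzz 5 3 4 (by decide))⟩
  · exact ⟨6, row_eq (m := 6) (b := 7) (c := 8) (p := x3) (q := y3) (by decide) (d0 6) (dE 6)
      (tt_eq _ _ (by decide)) (tt_eq _ _ (by decide)) (hzz 6 7 8 (by decide))⟩
  · exact ⟨7, row_eq (m := 7) (b := 6) (c := 8) (p := !x3) (q := z3) (by decide) (d0 7) (dE 7)
      (tt_eq_not hi (by decide) (by decide)) (tt_eq _ _ (by decide)) (hzz 7 6 8 (by decide))⟩
  · exact ⟨8, row_eq (m := 8) (b := 6) (c := 7) (p := !y3) (q := !z3) (by decide) (d0 8) (dE 8)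
      (tt_eq_not hi (by decide) (by decide)) (tt_eq_not hi (by decide) (by decide))
      (hzz 8 6 7 (by decide))⟩
  · exact ⟨9, row_eq (m := 9) (b := 10) (c := 11) (p := u) (q := false) (by decide) (d0 9) (dE 9)
      (tt_eq _ _ (by decide)) (tt_zero (by decide)) (hzz 9 10 11 (by decide))⟩
  · exact ⟨10, row_eq (m := 10) (b := 9) (c := 11) (p := !u) (q := false) (by decide) (d0 10)
      (dE 10) (tt_eq_not hi (by decide) (by decide)) (tt_zero (by decide))
      (hzz 10 9 11 (by decide))⟩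
  · exact ⟨11, row_eq (m := 11) (b := 0) (c := 1) (p := false) (q := false) (by decide) (d0 11)
      (dE 11) (tt_zero (by decide)) (tt_zero (by decide)) (hzz 11 0 1 (by decide))⟩

/-- base darts -/
def base : Vt → Dt := fun v => match v with
  | Sum.inl (i, j) => (i, j, 0)
  | Sum.inr k => (0, p0 k, 3)

lemma sr_base : ∀ v, sr (base v) = v := by
  rintro (⟨i, j⟩ | k)
  · simp [base]
  · simp [base, wd_p0]

theorem lower (hsrc : ∀ d, sr (rot d) = sr d) (hcyc : ∀ p q, sr p = sr q → rot.SameCycle p q) :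
    10 + Nat.card (Quot (relV rot)) + Nat.card (Quot (relF rot rvP)) ≤
      Nat.card (Quot (relE rvP)) + 2 * Nat.card (Quot (relC rot rvP)) := by
  obtain ⟨idx, hi, hb⟩ := exists_idx rot sr hsrc hcyc base sr_base
  have h0 : ∀ i j, idx (i, j, 0) = 0 := fun i j => hb (Sum.inl (i, j))
  have h9 : ∀ k, idx (0, p0 k, 3) = 0 := fun k => hb (Sum.inr k)
  have main : ∀ {κ : Type} [Finite κ] (r s : κ → Fin 10 → Fin 17 → F2)
      (hrs : ∀ k, IsCyc (r k) (s k))
      (hr : 10 ≤ finrank F2 (Submodule.span F2 (Set.range fun k => (fun l =>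
        Jf sr orr idx (ef (r k) (s k)) (ef (r l) (s l)))))),
      10 + Nat.card (Quot (relV rot)) + Nat.card (Quot (relF rot rvP)) ≤
      Nat.card (Quot (relE rvP)) + 2 * Nat.card (Quot (relC rot rvP)) := by
    intro κ _ r s hrs hr
    have h := rank_Jf_le (rot := rot) (rev := rvP) (src := sr) orr (fun p => rv_rv p)
      (fun p => rv_ne p) orr_rv hsrc hcyc hi (fun k => ef (r k) (s k)) (fun k => ef (r k) (s k))
      (fun k v => (hrs k).starSum v) (fun k p => ef_rv _ _ p)
      (fun k v => (hrs k).starSum v) (fun k p => ef_rv _ _ p)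
    omega
  by_cases hflat : ∃ a : Fin 5, ∀ j, lt2 (idx (lev a, j, 2)) (idx (lev a, j, 1)) +
      lt2 (idx (lev a, j + 1, 2)) (idx (lev a, j + 1, 1)) = 0
  · obtain ⟨a, ha⟩ := hflat
    -- all the comparisons agree
    have hall : ∀ n : ℕ, ∀ hn : n < 17, lt2 (idx (lev a, ⟨n, hn⟩, 2)) (idx (lev a, ⟨n, hn⟩, 1)) =
        lt2 (idx (lev a, 0, 2)) (idx (lev a, 0, 1)) := by
      intro n
      induction n with
      | zero => intro hn; rfl
      | succ n ih =>
        intro hn
        have h1 := ha ⟨n, by omega⟩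
        rw [ih (by omega)] at h1
        have h2 : (⟨n, by omega⟩ + 1 : Fin 17) = ⟨n + 1, hn⟩ := by
          ext
          simp [Fin.val_add, Nat.mod_eq_of_lt hn]
        rw [h2] at h1
        exact (CharTwo.add_eq_zero.mp h1).symm
    have hex : ∃ e : Bool, lt2 (idx (lev a, 0, 2)) (idx (lev a, 0, 1)) = bF e := by
      unfold lt2
      by_cases h : idx (lev a, 0, 2) < idx (lev a, 0, 1)
      · exact ⟨true, by simp [h, bF]⟩
      · exact ⟨false, by simp [h, bF]⟩
    obtain ⟨e, he⟩ := hex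
    exact main (fun m => zr (lev a) m) (fun m => zs (lev a) m) (fun m => isCyc_z _ m)
      (flat_rank hi h0 h9 (lev a) e (fun j => by rw [← he]; exact hall j.1 j.2))
  · push Not at hflat
    choose j0 hj0 using hflat
    have hj : ∀ a, lt2 (idx (lev a, j0 a, 2)) (idx (lev a, j0 a, 1)) +
        lt2 (idx (lev a, j0 a + 1, 2)) (idx (lev a, j0 a + 1, 1)) = 1 := by
      intro a
      have h1 := hj0 a
      generalize lt2 (idx (lev a, j0 a, 2)) (idx (lev a, j0 a, 1)) +
        lt2 (idx (lev a, j0 a + 1, 2)) (idx (lev a, j0 a + 1, 1)) = x at h1 ⊢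
      revert h1; revert x; decide
    refine main (famR j0) (famS j0) (isCyc_fam j0) ?_
    rw [span_top hi h0 j0 hj, finrank_top, Module.finrank_fintype_fun_eq_card]
    simp

end Pool.Agent.H60.IACR
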