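import Pool.Agent.H60.IACR.KGraph
import Pool.Agent.H60.IACR.Lower

/-!
# The explicit graph has no drawing without crossings on the surface of genus four
-/

open Finset

namespace Pool.Agent.H60.IACR

lemma card_quot_congr {A B : Type*} (e : A ≃ B) {r : A → A → Prop} {s : B → B → Prop}
    (h : ∀ a b, r a b ↔ s (e a) (e b)) : Nat.card (Quot r) = Nat.card (Quot s) :=
  Nat.card_congr (Quot.congr e h)

lemma pow_conj {A B : Type*} (e : A ≃ B) (f : Equiv.Perm A) (n : ℕ) (a : A) :
    ((e.permCongr f) ^ n) (e a) = e ((f ^ n) a) := by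
  induction n with
  | zero => rfl
  | succ n ih =>
    rw [pow_succ', pow_succ', Equiv.Perm.mul_apply, Equiv.Perm.mul_apply, ih,
      Equiv.permCongr_apply, Equiv.symm_apply_apply]

/-- pieces of a drawing without crossings -/
def phi (cr : K.Dart → ℕ) (h0 : ∀ a, cr a = 0) : Piece K cr ≃ Dt where
  toFun p := eD.symm p.1.1
  invFun d := ⟨(eD d, 0), Nat.zero_le _⟩
  left_inv := by
    rintro ⟨⟨a, n⟩, hn⟩
    have : n = 0 := Nat.le_zero.mp (by rw [← h0 a]; exact hn)
    subst this
    apply Subtype.ext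
    simp
  right_inv := by intro d; simp

theorem eulerGenus_ge (D : Drawing K) (h0 : ∀ a, D.cr a = 0) : 10 ≤ D.eulerGenus := by
  set φ := phi D.cr h0 with hφ
  have hz : ∀ p : Piece K D.cr, p.1.2 = 0 := by
    intro p
    exact Nat.le_zero.mp (by rw [← h0 p.1.1]; exact p.2)
  set rot := φ.permCongr D.rot with hrot
  have hr : ∀ p, rot (φ p) = φ (D.rot p) := by
    intro p; rw [hrot, Equiv.permCongr_apply, Equiv.symm_apply_apply]
  have hsφ : ∀ p, sr (φ p) = p.1.1.fst := fun p => eDs_fst _
  have hvφ : ∀ p, φ (D.rev p) = rv (φ p) := fun p => eDs_symm _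
  have hsrc : ∀ d, sr (rot d) = sr d := by
    intro d
    obtain ⟨p, rfl⟩ := φ.surjective d
    rw [hr, hsφ, hsφ, (D.rot_vertex p (hz p)).2]
  have hcyc : ∀ d e, sr d = sr e → rot.SameCycle d e := by
    intro d e h
    obtain ⟨p, rfl⟩ := φ.surjective d
    obtain ⟨q, rfl⟩ := φ.surjective e
    rw [hsφ, hsφ] at h
    have hfin : Finite (Piece K D.cr) := Finite.of_equiv _ φ.symm
    obtain ⟨n, hn⟩ := (D.rot_sameCycle p q (hz p) (hz q) h).exists_nat_pow_eq
    refine ⟨(n : ℤ), ?_⟩
    rw [zpow_natCast, hrot, pow_conj, hn]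
  have hl := lower hsrc hcyc
  have eV : D.numPoints = Nat.card (Quot (relV rot)) :=
    card_quot_congr φ fun p q => by
      rw [relV, hr]; exact φ.injective.eq_iff.symm
  have eE : D.numPieces = Nat.card (Quot (relE rvP)) :=
    card_quot_congr φ fun p q => by
      rw [relE, rvP_apply, ← hvφ]; exact φ.injective.eq_iff.symm
  have eF : D.numFaces = Nat.card (Quot (relF rot rvP)) :=
    card_quot_congr φ fun p q => by
      rw [relF, rvP_apply, hr, ← hvφ]; exact φ.injective.eq_iff.symm
  have eC : D.numComponents = Nat.card (Quot (relC rot rvP)) :=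
    card_quot_congr φ fun p q => by
      rw [relC, rvP_apply, hr, ← hvφ, φ.injective.eq_iff, φ.injective.eq_iff]
  unfold Drawing.eulerGenus
  rw [eV, eE, eF, eC]
  have : (10 : ℤ) + Nat.card (Quot (relV rot)) + Nat.card (Quot (relF rot rvP)) ≤
      Nat.card (Quot (relE rvP)) + 2 * Nat.card (Quot (relC rot rvP)) := by exact_mod_cast hl
  linarith

theorem not_crZero : ¬ CrZero 4 K := by
  rintro ⟨D, hD, h0⟩
  have h1 := eulerGenus_ge D h0
  unfold Drawing.OnSurface at hD
  push_cast at hD
  linarith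

end Pool.Agent.H60.IACR
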