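import Pool.Agent.H60.IACR.Checks
import Pool.Agent.H60.IACR.NoEmb

/-!
# The explicit drawing on the surface of genus four
-/

open Finset

namespace Pool.Agent.H60.IACR

/-- crossing numbers of the edges of `K` -/
def crK (a : K.Dart) : ℕ := crD (eD.symm a)

lemma crD_rv : ∀ d, crD (rv d) = crD d := by decide +kernel

/-- pieces of the explicit drawing -/
def psi : Piece K crK ≃ PS where
  toFun p := ⟨eD.symm p.1.1, ⟨p.1.2, Nat.lt_succ_of_le p.2⟩⟩
  invFun q := ⟨(eD q.1, q.2.val), by
    change q.2.val ≤ crD (eD.symm (eD q.1))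
    rw [Equiv.symm_apply_apply]
    exact Nat.le_of_lt_succ q.2.isLt⟩
  left_inv := by
    rintro ⟨⟨a, n⟩, hn⟩
    apply Subtype.ext
    simp
  right_inv := by
    rintro ⟨d, n⟩
    have h : eD.symm (eD d) = d := eD.symm_apply_apply d
    refine Sigma.ext h ?_
    simp only
    congr 1
    · rw [h]
    · apply proof_irrel_heq

lemma psi_fst (p : Piece K crK) : (psi p).1 = eD.symm p.1.1 := rfl
lemma psi_snd (p : Piece K crK) : (psi p).2.val = p.1.2 := rfl

lemma ps_ext {p q : PS} (h1 : p.1 = q.1) (h2 : p.2.val = q.2.val) : p = q := by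
  obtain ⟨d, n⟩ := p
  obtain ⟨d', n'⟩ := q
  simp only at h1
  subst h1
  simp only at h2
  rw [Fin.ext h2]

lemma pc_snd {d : Dt} {n : ℕ} (h : n ≤ crD d) : (pc d n).2.val = n :=
  Nat.mod_eq_of_lt (Nat.lt_succ_of_le h)

/-- the rotation -/
def rotK : Equiv.Perm (Piece K crK) := psi.symm.permCongr rotP

lemma psi_rotK (p : Piece K crK) : psi (rotK p) = rotS (psi p) := by
  rw [rotK, Equiv.permCongr_apply, Equiv.symm_symm, Equiv.apply_symm_apply]
  rfl

lemma rotK_fst (p : Piece K crK) : eD.symm (rotK p).1.1 = (rotS (psi p)).1 := by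
  rw [← psi_rotK]; rfl

lemma rotK_snd (p : Piece K crK) : (rotK p).1.2 = (rotS (psi p)).2.val := by
  rw [← psi_rotK]; rfl

lemma rotK_fst' (p : Piece K crK) : (rotK p).1.1 = eD (rotS (psi p)).1 := by
  rw [← rotK_fst, Equiv.apply_symm_apply]

lemma sameCycle_base (p : PS) (hp : p.2.val = 0) : rotP.SameCycle (baseS (sr p.1)) p := by
  rcases reach p hp with h | h | h | h
  · exact ⟨0, h.symm⟩
  · exact ⟨1, h.symm⟩
  · exact ⟨2, h.symm⟩
  · exact ⟨3, h.symm⟩

/-- the explicit drawing -/
def drawingK : Drawing K where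
  cr := crK
  cr_symm a := by unfold crK; rw [eDs_symm, crD_rv]
  rot := rotK
  rot_vertex p hp := by
    have h := rotS_vertex (psi p) hp
    refine ⟨by rw [rotK_snd]; exact h.1, ?_⟩
    rw [← eDs_fst, rotK_fst, h.2, psi_fst, eDs_fst]
  rot_sameCycle p q hp hq h := by
    have h1 := sameCycle_base (psi p) hp
    have h2 := sameCycle_base (psi q) hq
    have h3 : sr (psi p).1 = sr (psi q).1 := by
      rw [psi_fst, psi_fst, eDs_fst, eDs_fst, h]
    rw [h3] at h1
    have h4 := h1.symm.trans h2
    obtain ⟨n, hn⟩ := h4.exists_nat_pow_eq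
    refine ⟨(n : ℤ), ?_⟩
    rw [zpow_natCast]
    apply psi.injective
    rw [← hn]
    have h5 := pow_conj psi.symm rotP n (psi p)
    rw [Equiv.symm_apply_apply] at h5
    rw [rotK, h5, Equiv.apply_symm_apply]
  rot_rot p hp := by
    have h := rotS_rotS (psi p) hp
    rw [← psi_rotK, ← psi_rotK] at h
    apply Prod.ext
    · apply eD.symm.injective
      exact h.1.trans (eDs_symm _).symm
    · exact h.2
  rot_edge p hp := by
    have h := rotS_other (psi p) hp
    intro he
    rw [SimpleGraph.dart_edge_eq_iff] at he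
    rw [← psi_rotK, psi_fst, psi_fst] at h
    rcases he with he | he
    · exact h.1 (by rw [he])
    · exact h.2 (by rw [he, eDs_symm])

lemma psi_rev (p : Piece K crK) : psi (drawingK.rev p) = revS (psi p) := by
  have h1 : (psi (drawingK.rev p)).1 = (revS (psi p)).1 := by
    rw [psi_fst]
    exact eDs_symm _
  apply ps_ext h1
  have h2 : (revS (psi p)).2.val = crD (psi p).1 - (psi p).2.val := by
    apply pc_snd
    rw [crD_rv]
    exact Nat.sub_le _ _
  rw [h2]
  rfl

lemma quot_ge {A : Type*} [Finite A] (r : A → A → Prop) (n : ℕ) (lab : A → ℕ)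
    (hr : ∀ a b, r a b → lab a = lab b) (hlt : ∀ a, lab a < n) (rep : ℕ → A)
    (hrep : ∀ l < n, lab (rep l) = l) : n ≤ Nat.card (Quot r) := by
  have h1 : Nat.card (Fin n) ≤ Nat.card (Quot r) := by
    apply Nat.card_le_card_of_surjective
      (Quot.lift (fun a => (⟨lab a, hlt a⟩ : Fin n)) (fun a b h => Fin.ext (hr a b h)))
    intro l
    exact ⟨Quot.mk r (rep l.val), Fin.ext (hrep l.val l.isLt)⟩
  simpa using h1

theorem numPoints_ge : 187 ≤ drawingK.numPoints := by
  have h : drawingK.numPoints = Nat.card (Quot fun p q : PS => rotS p = q) :=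
    card_quot_congr psi fun p q => by
      change rotK p = q ↔ _
      rw [← psi_rotK]; exact psi.injective.eq_iff.symm
  rw [h]
  exact quot_ge _ 187 labV (fun a b hab => by rw [← hab, labV_rot]) labV_lt repV labV_rep

theorem numFaces_ge : 171 ≤ drawingK.numFaces := by
  have h : drawingK.numFaces = Nat.card (Quot fun p q : PS => revS (rotS p) = q) :=
    card_quot_congr psi fun p q => by
      change drawingK.rev (rotK p) = q ↔ _
      rw [← psi_rotK, ← psi_rev]; exact psi.injective.eq_iff.symm
  rw [h]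
  exact quot_ge _ 171 labF (fun a b hab => by rw [← hab, labF_rot]) labF_lt repF labF_rep

theorem numPieces_eq : drawingK.numPieces = 364 := by
  have h : drawingK.numPieces = Nat.card (Quot fun p q : PS => revS p = q) :=
    card_quot_congr psi fun p q => by
      rw [← psi_rev]; exact psi.injective.eq_iff.symm
  have h1 := card_P (Function.Involutive.toPerm revS revS_revS) revS_revS revS_ne
  rw [card_PS] at h1
  have h2 : Nat.card (Quot fun p q : PS => revS p = q) =
      Nat.card (Quot (relE (Function.Involutive.toPerm revS revS_revS))) := rfl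
  rw [h, h2]
  omega

theorem numComponents_le : drawingK.numComponents ≤ 1 := by
  have h : drawingK.numComponents =
      Nat.card (Quot fun p q : PS => rotS p = q ∨ revS p = q) :=
    card_quot_congr psi fun p q => by
      change rotK p = q ∨ drawingK.rev p = q ↔ _
      rw [← psi_rotK, ← psi_rev, psi.injective.eq_iff, psi.injective.eq_iff]
      exact Iff.rfl
  rw [h, Finite.card_le_one_iff_subsingleton]
  set r : PS → PS → Prop := fun p q => rotS p = q ∨ revS p = q
  have key : ∀ (n : ℕ) (p : PS), rkS p ≤ n → Quot.mk r p = Quot.mk r (pc (0, 0, 0) 0) := by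
    intro n
    induction n with
    | zero =>
      intro p hp
      rw [(rkS_spec p).1 (Nat.le_zero.mp hp)]
    | succ n ih =>
      intro p hp
      rcases Nat.eq_zero_or_pos (rkS p) with h0 | h0
      · rw [(rkS_spec p).1 h0]
      · rcases (rkS_spec p).2 h0 with h1 | h1
        · rw [← ih (rotS p) (by omega)]
          exact Quot.sound (Or.inl rfl)
        · rw [← ih (revS p) (by omega)]
          exact Quot.sound (Or.inr rfl)
  refine ⟨fun x y => ?_⟩
  induction x using Quot.ind with
  | mk p =>
    induction y using Quot.ind with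
    | mk q => rw [key _ p le_rfl, key _ q le_rfl]

theorem onSurface : drawingK.OnSurface 4 := by
  unfold Drawing.OnSurface Drawing.eulerGenus
  have h1 := numPoints_ge
  have h2 := numFaces_ge
  have h3 := numPieces_eq
  have h4 := numComponents_le
  rw [h3]
  have h1' : (187 : ℤ) ≤ drawingK.numPoints := by exact_mod_cast h1
  have h2' : (171 : ℤ) ≤ drawingK.numFaces := by exact_mod_cast h2
  have h4' : (drawingK.numComponents : ℤ) ≤ 1 := by exact_mod_cast h4
  push_cast
  linarith

/-- crossings counted by darts -/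
lemma count_eq (a b : Dt) :
    Nat.card {p : Piece K drawingK.cr // p.1.1 = eD a ∧ 0 < p.1.2 ∧
      (drawingK.rot p).1.1 = eD b} = cnt a b := by
  unfold cnt
  rw [← Fintype.card_subtype, ← Nat.card_eq_fintype_card]
  apply Nat.card_congr
  have hcr : ∀ n, n ≤ crK (eD a) ↔ n < crD a + 1 := by
    intro n
    unfold crK
    rw [Equiv.symm_apply_apply]
    exact Nat.lt_succ_iff.symm
  refine
    { toFun := fun p => ⟨⟨p.1.1.2, (hcr _).mp ?_⟩, ?_⟩
      invFun := fun n => ⟨⟨(eD a, n.1.val), (hcr _).mpr n.1.isLt⟩, rfl, n.2.1, ?_⟩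
      left_inv := ?_
      right_inv := ?_ }
  · have := p.1.2
    rw [p.2.1] at this
    exact this
  · refine ⟨p.2.2.1, ?_⟩
    have h1 := p.2.2.2
    change (rotK p.1).1.1 = eD b at h1
    rw [rotK_fst'] at h1
    have h2 := eD.injective h1
    refine Eq.trans (congrArg (fun q => (rotS q).1) ?_) h2
    apply ps_ext
    · change a = eD.symm p.1.1.1
      rw [p.2.1, Equiv.symm_apply_apply]
    · rfl
  · change (rotK _).1.1 = eD b
    rw [rotK_fst']
    refine congrArg eD (Eq.trans (congrArg (fun q => (rotS q).1) ?_) n.2.2)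
    apply ps_ext
    · change eD.symm (eD a) = a
      exact eD.symm_apply_apply a
    · rfl
  · rintro ⟨⟨⟨c, n⟩, hn⟩, h1, h2⟩
    simp only at h1
    subst h1
    rfl
  · rintro ⟨n, h⟩
    rfl

theorem algZero (a b : K.Dart) (hab : Independent a b) :
    drawingK.fromLeft a b = drawingK.fromRight a b := by
  obtain ⟨a, rfl⟩ := eD.surjective a
  obtain ⟨b, rfl⟩ := eD.surjective b
  unfold Drawing.fromLeft Drawing.fromRight
  rw [eD_symm, count_eq, count_eq]
  obtain ⟨h1, h2, h3, h4⟩ := hab
  rcases cnt_eq a with h | h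
  · have hz : ∀ c, cnt a c = 0 := by
      intro c
      unfold cnt
      rw [Finset.card_eq_zero, Finset.filter_eq_empty_iff]
      intro n _ hn
      have := n.isLt
      omega
    rw [hz, hz]
  · exact (h b ⟨h1, h2, h3, h4⟩).symm

theorem iacrZero : IacrZero 4 K := ⟨drawingK, onSurface, algZero⟩

end Pool.Agent.H60.IACR
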