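import Pool.Agent.H60.IACR.Pieces

/-!
# The explicit drawing: Euler characteristic and crossings
-/

open Finset

namespace Pool.Agent.H60.IACR

set_option maxRecDepth 100000

/-- rotation as a permutation -/
def rotP : Equiv.Perm PS := ⟨rotS, invS, invS_rotS, rotS_invS⟩

/-- base pieces at the vertices -/
def baseS : Vt → PS := fun v => match v with
  | Sum.inl (i, j) => pc (i, j, 2) 0
  | Sum.inr k => pc (0, (![1, 0, 2, 4, 10] : Fin 5 → Fin 17) k, 3) 0

theorem reach : ∀ p : PS, p.2.val = 0 → p = baseS (sr p.1) ∨ p = rotS (baseS (sr p.1)) ∨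
    p = rotS (rotS (baseS (sr p.1))) ∨ p = rotS (rotS (rotS (baseS (sr p.1)))) := by
  decide +kernel

/-- labels of the points -/
def xv : Fin 17 → List ℕ :=
  ![[0, 1, 2, 3, 4], [0, 5, 3, 6, 7], [1, 8, 9, 10, 4], [], [10, 5, 11, 7, 8], [9], [], [], [11],
    [2], [], [], [], [], [], [6], []]

def labV (p : PS) : ℕ :=
  if p.2.val = 0 then
    if p.1.2.2 = 3 ∧ p.1.1 = 0 then 170 + (wd p.1.2.1).val else 17 * p.1.1.val + p.1.2.1.val
  else if p.1.2.2 = 2 then 175 + (xv p.1.2.1).getD (p.2.val - 1) 0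
  else 175 + (xv p.1.2.1).getD (mD p.1.2.1 - p.2.val) 0

def repV (l : ℕ) : PS :=
  if l < 170 then pc (Fin.ofNat 10 (l / 17), Fin.ofNat 17 (l % 17), 0) 0
  else if l < 175 then pc (0, (![1, 0, 2, 4, 10] : Fin 5 → Fin 17) (Fin.ofNat 5 (l - 170)), 3) 0
  else (([(0, 1), (0, 2), (0, 3), (0, 4), (0, 5), (1, 2), (1, 4), (1, 5), (2, 2), (2, 3), (2, 4),
    (4, 3)] : List (Fin 17 × ℕ)).map (fun x => pc (9, x.1, 2) x.2)).getD (l - 175) (pc (0, 0, 0) 0)

theorem labV_rot : ∀ p : PS, labV (rotS p) = labV p := by decide +kernel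

theorem labV_lt : ∀ p : PS, labV p < 187 := by decide +kernel

theorem labV_rep : ∀ l < 187, labV (repV l) = l := by decide +kernel

/-- labels of the faces -/
def lf0 : Fin 17 → ℕ :=
  ![159, 162, 166, 167, 154, 164, 165, 169, 168, 156, 157, 170, 160, 163, 170, 157, 161]
def lf2 : Fin 17 → List ℕ :=
  ![[162, 166, 167, 170, 161, 163], [166, 158, 156, 170, 168, 169], [167, 157, 160, 159, 155, 161],
    [154], [164, 159, 158, 169, 160, 165], [165, 160], [169], [168], [156, 158], [157, 167], [170],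
    [160], [163], [170], [157], [161, 170], [159]]
def lf3 : Fin 17 → List ℕ :=
  ![[154, 155, 156, 157, 158, 159], [160, 157, 161, 155, 159, 162], [163, 154, 164, 165, 158, 166],
    [167], [158, 157, 168, 156, 155, 154], [159, 164], [165], [169], [169, 168], [170, 156], [157],
    [170], [160], [163], [170], [168, 157], [161]]

def labF (p : PS) : ℕ := match p.1.2.2 with
  | 2 => if p.1.1 = 9 then (lf2 p.1.2.1).getD p.2 0 else 17 * p.1.1.val + p.1.2.1.val
  | 1 => if p.1.1 = 0 then 153 else 17 * (p.1.1.val - 1) + p.1.2.1.val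
  | 3 => if p.1.1 = 0 then (lf3 p.1.2.1).getD p.2 0
      else 17 * (p.1.1.val - 1) + (p.1.2.1 - 1).val
  | 0 => if p.1.1 = 9 then lf0 p.1.2.1 else 17 * p.1.1.val + (p.1.2.1 - 1).val

def repF (l : ℕ) : PS :=
  if l < 153 then pc (Fin.ofNat 10 (l / 17), Fin.ofNat 17 (l % 17), 2) 0
  else if l = 153 then pc (0, 0, 1) 0
  else (([(0, 0), (0, 1), (0, 2), (0, 3), (0, 4), (0, 5), (1, 0), (1, 2), (1, 5), (2, 0), (2, 2),
    (2, 3), (2, 5), (3, 0), (4, 2), (7, 0), (9, 0)] : List (Fin 17 × ℕ)).map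
    (fun x => pc (0, x.1, 3) x.2)).getD (l - 154) (pc (0, 0, 0) 0)

theorem labF_rot : ∀ p : PS, labF (revS (rotS p)) = labF p := by decide +kernel

theorem labF_lt : ∀ p : PS, labF p < 171 := by decide +kernel

theorem labF_rep : ∀ l < 171, labF (repF l) = l := by decide +kernel

/-- distance to the base piece, for connectedness -/
def rk2 : Fin 17 → List ℕ :=
  ![[202, 202, 204, 204, 203], [203, 204, 203, 204, 203], [203, 203, 203, 204, 203], [],
    [203, 203, 204, 204, 204], [203], [], [], [203], [203], [], [], [], [], [], [203], []]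
def rk3 : Fin 17 → List ℕ :=
  ![[202, 205, 205, 202, 203, 201], [202, 205, 202, 205, 204, 201], [202, 204, 202, 202, 204, 201],
    [201], [203, 205, 205, 202, 204, 201], [202, 201], [201], [201], [202, 201], [202, 201], [201],
    [201], [201], [201], [201], [202, 201], [201]]

def rkS (p : PS) : ℕ :=
  if p.1.2.2 = 3 ∧ p.1.1 = 0 then (rk3 p.1.2.1).getD p.2 0
  else if p.2.val = 0 then
    if p.1.1 = 0 then 4 * p.1.2.1.val + (![0, 1, 2, 0] : Fin 4 → ℕ) p.1.2.2
    else 4 * p.1.2.1.val + 3 * p.1.1.val + (![3, 1, 2, 0] : Fin 4 → ℕ) p.1.2.2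
  else (rk2 p.1.2.1).getD (p.2.val - 1) 0

theorem rkS_spec : ∀ p : PS, (rkS p = 0 → p = pc (0, 0, 0) 0) ∧
    (0 < rkS p → rkS (rotS p) < rkS p ∨ rkS (revS p) < rkS p) := by decide +kernel

/-- number of crossings of the edges of `a` and `b` where `b` goes on -/
def cnt (a b : Dt) : ℕ :=
  (Finset.univ.filter (fun n : Fin (crD a + 1) => 0 < n.val ∧ (rotS ⟨a, n⟩).1 = b)).card

theorem cnt_eq : ∀ a : Dt, crD a = 0 ∨ ∀ b : Dt,
    (sr a ≠ sr b ∧ sr a ≠ sr (rv b) ∧ sr (rv a) ≠ sr b ∧ sr (rv a) ≠ sr (rv b)) →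
    cnt a b = cnt a (rv b) := by decide +kernel

end Pool.Agent.H60.IACR
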