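import Mathlib

/-!
# Drawings of graphs on closed orientable surfaces, as rotation systems of planarisations

A drawing of a graph `G` on an orientable surface, in which the edges are arcs, any two edges meet
in finitely many points, each of them a transversal crossing, and no point lies on three edges, is
recorded by the rotation system of its planarisation: the graph whose vertices are the vertices of
`G` and the crossing points, and whose edges are the pieces into which the crossing points cut the
edges of `G`.
-/

namespace Pool.Agent.H60.IACR

variable {V : Type*} {G : SimpleGraph V}

/-- Pieces of edges. A dart `a` of `G` is an edge with a direction. If `cr a` is the number of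
crossing points on the edge of `a`, these points cut this edge into `cr a + 1` pieces, and `(a, i)`,
`0 ≤ i ≤ cr a`, is the `i`-th piece met when the edge is traversed in the direction of `a`; the piece
is given the same direction. The piece `(a, 0)` starts at the vertex `a.fst`, and for `i > 0` the
piece `(a, i)` starts at the `i`-th crossing point of `a`. -/
def Piece (G : SimpleGraph V) (cr : G.Dart → ℕ) : Type _ := {p : G.Dart × ℕ // p.2 ≤ cr p.1}

/-- A drawing of `G` on an oriented surface. -/
structure Drawing (G : SimpleGraph V) where
  /-- the number of crossing points on the edge of a dart -/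
  cr : G.Dart → ℕ
  /-- it does not depend on the direction -/
  cr_symm : ∀ a, cr a.symm = cr a
  /-- `rot p` is the next piece, in anticlockwise order, among the directed pieces which start at
  the starting point of `p` -/
  rot : Equiv.Perm (Piece G cr)
  /-- the pieces starting at a vertex are permuted among themselves ... -/
  rot_vertex : ∀ p : Piece G cr, p.1.2 = 0 → (rot p).1.2 = 0 ∧ (rot p).1.1.fst = p.1.1.fst
  /-- ... in a single cycle -/
  rot_sameCycle : ∀ p q : Piece G cr, p.1.2 = 0 → q.1.2 = 0 → p.1.1.fst = q.1.1.fst →
    rot.SameCycle p q
  /-- at a crossing point the two pieces of the same edge are opposite to each other: two steps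
  after the piece `(a, i)` comes the piece of the same edge that goes backwards, which is
  `(a.symm, cr a + 1 - i)` -/
  rot_rot : ∀ p : Piece G cr, 0 < p.1.2 → (rot (rot p)).1 = (p.1.1.symm, cr p.1.1 + 1 - p.1.2)
  /-- the pieces in between belong to another edge -/
  rot_edge : ∀ p : Piece G cr, 0 < p.1.2 → (rot p).1.1.edge ≠ p.1.1.edge

namespace Drawing

variable (D : Drawing G)

/-- the same piece in the opposite direction -/
def rev (p : Piece G D.cr) : Piece G D.cr :=
  ⟨(p.1.1.symm, D.cr p.1.1 - p.1.2), by simp [D.cr_symm]⟩

/-- Number of points of the planarisation (vertices of `G` of positive degree, and crossing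
points): the cycles of `rot`. -/
noncomputable def numPoints : ℕ := Nat.card (Quot fun p q : Piece G D.cr => D.rot p = q)

/-- Number of (undirected) pieces. -/
noncomputable def numPieces : ℕ := Nat.card (Quot fun p q : Piece G D.cr => D.rev p = q)

/-- Number of faces of the rotation system: the cycles of `p ↦ rev (rot p)`. -/
noncomputable def numFaces : ℕ := Nat.card (Quot fun p q : Piece G D.cr => D.rev (D.rot p) = q)

/-- Number of connected components of the planarisation (isolated vertices of `G` are not
counted). -/
noncomputable def numComponents : ℕ :=
  Nat.card (Quot fun p q : Piece G D.cr => D.rot p = q ∨ D.rev p = q)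

/-- Twice the sum of the genera of the closed orientable surfaces in which the rotation system
embeds the components of the planarisation: `2 - (points - pieces + faces)`, summed over the
components. -/
noncomputable def eulerGenus : ℤ :=
  2 * D.numComponents - (D.numPoints - D.numPieces + D.numFaces)

/-- The drawing is a drawing on the closed orientable surface `M_g` of genus `g`. -/
def OnSurface (g : ℕ) : Prop := D.eulerGenus ≤ 2 * g

/-- Number of crossing points of the edges of `a` and `b` where (with these directions of the two
edges) `b` crosses `a` from right to left: anticlockwise after the piece of `a` comes the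
piece that goes on in the direction of `b`. -/
noncomputable def fromRight (a b : G.Dart) : ℕ :=
  Nat.card {p : Piece G D.cr // p.1.1 = a ∧ 0 < p.1.2 ∧ (D.rot p).1.1 = b}

/-- Number of crossing points of the edges of `a` and `b` where `b` crosses `a` from left to
right. -/
noncomputable def fromLeft (a b : G.Dart) : ℕ :=
  Nat.card {p : Piece G D.cr // p.1.1 = a ∧ 0 < p.1.2 ∧ (D.rot p).1.1 = b.symm}

/-- The two edges have no common end. -/
def _root_.Pool.Agent.H60.IACR.Independent (a b : G.Dart) : Prop :=
  a.fst ≠ b.fst ∧ a.fst ≠ b.snd ∧ a.snd ≠ b.fst ∧ a.snd ≠ b.snd

end Drawing

/-- `iacr_{M_g}(G) = 0`: there is a drawing of `G` on `M_g` in which, for any two independent edges,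
the number of crossings from the left equals the number of crossings from the right. -/
def IacrZero (g : ℕ) (G : SimpleGraph V) : Prop :=
  ∃ D : Drawing G, D.OnSurface g ∧
    ∀ a b : G.Dart, Independent a b → D.fromLeft a b = D.fromRight a b

/-- `cr_{M_g}(G) = 0`: `G` has a drawing on `M_g` without crossings. -/
def CrZero (g : ℕ) (G : SimpleGraph V) : Prop :=
  ∃ D : Drawing G, D.OnSurface g ∧ ∀ a : G.Dart, D.cr a = 0

end Pool.Agent.H60.IACR
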