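import Pool.Agent.H60.IACR.Rank

/-!
# Gaussian elimination on bitmasks over `F₂`
-/

open Module

namespace Pool.Agent.H60.IACR

/-- the vector of the low bits of `x` -/
def vec (d : ℕ) (x : ℕ) : Fin d → F2 := fun n => if x.testBit n then 1 else 0

lemma vec_xor (d x y : ℕ) : vec d (x ^^^ y) = vec d x + vec d y := by
  ext n
  simp only [vec, Pi.add_apply, Nat.testBit_xor]
  cases x.testBit n <;> cases y.testBit n <;> rfl

/-- elimination, returns the number of pivots among the bits below `b` -/
def elim : ℕ → List ℕ → ℕ
  | 0, _ => 0
  | b + 1, rows =>
    match rows.find? (fun r => r.testBit b) with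
    | none => elim b rows
    | some p => 1 + elim b (rows.map (fun r => if r.testBit b then r ^^^ p else r))

/-- span of a list of bitmasks -/
def spanL (d : ℕ) (rows : List ℕ) : Submodule F2 (Fin d → F2) :=
  Submodule.span F2 {v | ∃ r ∈ rows, v = vec d r}

theorem elim_le (d : ℕ) : ∀ (b : ℕ) (rows : List ℕ), b ≤ d →
    elim b rows ≤ finrank F2 (spanL d rows) := by
  intro b
  induction b with
  | zero => intro rows _; simp [elim]
  | succ b ih =>
    intro rows hb
    unfold elim
    cases h : rows.find? (fun r => r.testBit b) with
    | none => exact ih rows (by omega)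
    | some p =>
      have hp : p ∈ rows := List.mem_of_find?_eq_some h
      have hpb : p.testBit b = true := by
        have := List.find?_some h
        simpa using this
      simp only
      set rows' := rows.map (fun r => if r.testBit b then r ^^^ p else r) with hr
      have h1 : spanL d rows' ≤ spanL d rows := by
        unfold spanL
        rw [Submodule.span_le]
        rintro v ⟨r', hr', rfl⟩
        rw [hr, List.mem_map] at hr'
        obtain ⟨r, hrr, rfl⟩ := hr'
        split_ifs
        · rw [vec_xor]
          exact Submodule.add_mem _ (Submodule.subset_span ⟨r, hrr, rfl⟩)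
            (Submodule.subset_span ⟨p, hp, rfl⟩)
        · exact Submodule.subset_span ⟨r, hrr, rfl⟩
      have h2 : spanL d rows' ≤ LinearMap.ker (LinearMap.proj (R := F2) (φ := fun _ => F2)
          (⟨b, by omega⟩ : Fin d)) := by
        unfold spanL
        rw [Submodule.span_le]
        rintro v ⟨r', hr', rfl⟩
        rw [hr, List.mem_map] at hr'
        obtain ⟨r, hrr, rfl⟩ := hr'
        simp only [SetLike.mem_coe, LinearMap.mem_ker, LinearMap.proj_apply, vec]
        by_cases hrb : r.testBit b = true
        · simp [hrb, Nat.testBit_xor, hpb]
        · simp [hrb]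
      have h3 : spanL d rows' < spanL d rows := by
        refine lt_of_le_of_ne h1 fun heq => ?_
        have h4 : vec d p ∈ spanL d rows' := by
          rw [heq]; exact Submodule.subset_span ⟨p, hp, rfl⟩
        have h5 := h2 h4
        rw [LinearMap.mem_ker, LinearMap.proj_apply] at h5
        simp [vec, hpb] at h5
      have h4 := Submodule.finrank_lt_finrank_of_lt h3
      have h5 := ih rows' (by omega)
      omega

end Pool.Agent.H60.IACR
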