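import Pool.Agent.H60.IACR.Elim

/-!
# The finite computation: all rotations at the outer vertices
-/

namespace Pool.Agent.H60.IACR

/-- a bit -/
def bb (p : Bool) (i : ℕ) : ℕ := if p then i else 0

/-- transitivity of the order relation on three elements -/
def tr (x y z : Bool) : Bool := !(x && z && !y) && !(!x && !z && y)

/-- rows of the intersection matrix -/
def rowsL (e x1 y1 z1 x2 y2 z2 x3 y3 z3 u : Bool) : List ℕ :=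
  [1422 ^^^ bb e 6 ^^^ (bb x1 2 ^^^ bb y1 4),
   2460 ^^^ bb e 5 ^^^ (bb (!x1) 1 ^^^ bb z1 4),
   312 ^^^ bb e 3 ^^^ (bb (!y1) 1 ^^^ bb (!z1) 2),
   503 ^^^ bb e 48 ^^^ (bb x2 16 ^^^ bb y2 32),
   422 ^^^ bb e 40 ^^^ (bb (!x2) 8 ^^^ bb z2 32),
   2308 ^^^ bb e 24 ^^^ (bb (!y2) 8 ^^^ bb (!z2) 16),
   1928 ^^^ bb e 384 ^^^ (bb x3 128 ^^^ bb y3 256),
   2331 ^^^ bb e 320 ^^^ (bb (!x3) 64 ^^^ bb z3 256),
   63 ^^^ bb e 192 ^^^ (bb (!y3) 64 ^^^ bb (!z3) 128),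
   1088 ^^^ bb e 1024 ^^^ (bb u 1024 ^^^ 0),
   65 ^^^ bb e 512 ^^^ (bb (!u) 512 ^^^ 0),
   162 ^^^ bb e 0 ^^^ (0 ^^^ 0)]

set_option maxRecDepth 100000 in
theorem table_check : ∀ e x1 y1 z1 : Bool, tr x1 y1 z1 = true → ∀ x2 y2 z2 : Bool,
    tr x2 y2 z2 = true → ∀ x3 y3 z3 : Bool, tr x3 y3 z3 = true → ∀ u : Bool,
    10 ≤ elim 12 (rowsL e x1 y1 z1 x2 y2 z2 x3 y3 z3 u) := by
  decide +kernel

end Pool.Agent.H60.IACR
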