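import Pool.Agent.H60.IACR.NonFlat
import Pool.Agent.H60.IACR.Table

/-!
# If a layer is flat, the Euler genus is at least ten
-/

open Finset Module

namespace Pool.Agent.H60.IACR

variable {rot : Equiv.Perm Dt} {idx : Dt → ℕ}

/-- first end of the basic cycles -/
def pa : Fin 12 → Fin 17 := ![1, 1, 1, 0, 0, 0, 2, 2, 2, 4, 4, 10]
/-- second end of the basic cycles -/
def pb : Fin 12 → Fin 17 := ![7, 11, 15, 3, 9, 13, 5, 12, 16, 6, 8, 14]

def sn (n : Fin 12) (j : Fin 17) : F2 := (if j = pa n then 1 else 0) + (if j = pb n then 1 else 0)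
def rn (n : Fin 12) (j : Fin 17) : F2 := if pa n ≤ j ∧ j < pb n then 1 else 0

def zr (i0 : Fin 10) (n : Fin 12) : Fin 10 → Fin 17 → F2 := fun i j => if i = i0 then rn n j else 0
def zs (i0 : Fin 10) (n : Fin 12) : Fin 10 → Fin 17 → F2 := fun i j => if i0 ≤ i then sn n j else 0

lemma rs_rel : ∀ (n : Fin 12) (j : Fin 17), rn n (j - 1) + rn n j + sn n j = 0 := by decide

lemma s_out : ∀ (n : Fin 12) (k : Fin 5), ∑ j, (if wd j = k then sn n j else 0) = 0 := by decide

lemma fin_pred_facts (i i0 : Fin 10) : (i ≠ 0 → (i0 ≤ i - 1 ↔ i0 < i)) := by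
  revert i i0; decide

lemma isCyc_z (i0 : Fin 10) (n : Fin 12) : IsCyc (zr i0 n) (zs i0 n) := by
  constructor
  · intro i j
    unfold zr zs
    have h1 := rs_rel n j
    have two : (2 : F2) = 0 := rfl
    rcases lt_trichotomy i i0 with h | h | h
    · have e1 : i ≠ i0 := h.ne
      have e2 : ¬ i0 ≤ i := not_le.mpr h
      by_cases hi : i = 0
      · subst hi; simp [e1, e2]
      · have e3 : ¬ i0 ≤ i - 1 := by rw [fin_pred_facts i i0 hi]; exact not_lt.mpr h.le
        simp [e1, e2, e3]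
    · subst h
      by_cases hi : i = 0
      · subst hi; simpa using h1
      · have e3 : ¬ i ≤ i - 1 := by rw [fin_pred_facts i i hi]; exact lt_irrefl _
        simpa [hi, e3] using h1
    · have e1 : i ≠ i0 := h.ne'
      have e2 : i0 ≤ i := h.le
      have hi : i ≠ 0 := by
        intro h0; subst h0; exact absurd h (Fin.not_lt_zero _)
      have e3 : i0 ≤ i - 1 := (fin_pred_facts i i0 hi).mpr h
      simp only [e1, e2, e3, hi, if_true, if_false]
      linear_combination (sn n j) * two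
  · intro k
    have := s_out n k
    simpa [zs, Fin.le_last, show i0 ≤ (9 : Fin 10) from Fin.le_last i0] using this

/-- the constants -/
def cA (m n : Fin 12) : F2 := ∑ j, rn m j * sn n j
def cB (m n : Fin 12) : F2 := ∑ j, sn m j * rn n j
def cC (m n : Fin 12) : F2 := ∑ j, sn m j * sn n j
def cS (m n : Fin 12) : F2 := if wd (pb m) = wd (pb n) then 1 else 0

/-- comparison of two darts at an outer vertex -/
def tt (idx : Dt → ℕ) (x y : Fin 17) : F2 :=
  if wd x = wd y then lt2 (idx (0, x, 3)) (idx (0, y, 3)) else 0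

lemma outer_sn (m n : Fin 12) : outer idx (sn m) (sn n) =
    tt idx (pa m) (pa n) + tt idx (pb m) (pa n) + tt idx (pa m) (pb n) + tt idx (pb m) (pb n) := by
  have h1 : ∀ (f : Fin 17 → F2) (k : Fin 12), ∑ j, f j * sn k j = f (pa k) + f (pb k) := by
    intro f k
    simp [sn, mul_add, Finset.sum_add_distrib]
  have h2 : outer idx (sn m) (sn n) = ∑ j, (∑ j', tt idx j' j * sn m j') * sn n j := by
    unfold outer tt
    apply Finset.sum_congr rfl
    intro j _
    rw [Finset.sum_mul]
    apply Finset.sum_congr rfl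
    intro j' _
    split_ifs <;> ring
  rw [h2, h1, h1, h1]
  ring

/-- base points at the outer vertices -/
def p0 : Fin 5 → Fin 17 := ![1, 0, 2, 4, 10]

lemma pa_eq : ∀ n, pa n = p0 (wd (pa n)) := by decide
lemma wd_pa : ∀ n, wd (pa n) = wd (pb n) := by decide
lemma pb_ne : ∀ n, pb n ≠ p0 (wd (pb n)) := by decide
lemma wd_p0 : ∀ k, wd (p0 k) = k := by decide

lemma tt_pa (h9 : ∀ k, idx (0, p0 k, 3) = 0) (x : Fin 17) (n : Fin 12) :
    tt idx x (pa n) = 0 := by
  unfold tt
  rw [pa_eq n, h9]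
  simp [lt2]

lemma tt_pa_pb (hi : IsIdx rot sr idx) (h9 : ∀ k, idx (0, p0 k, 3) = 0) (m n : Fin 12) :
    tt idx (pa m) (pb n) = cS m n := by
  unfold tt cS
  rw [wd_pa m]
  by_cases h : wd (pb m) = wd (pb n)
  · rw [if_pos h, if_pos h]
    have e1 : idx (0, pa m, 3) = 0 := by rw [pa_eq m]; exact h9 _
    have e2 : idx (0, pb n, 3) ≠ 0 := by
      intro h0
      have e3 := hi.inj (0, pb n, 3) (0, p0 (wd (pb n)), 3) (by simp [wd_p0]) (by rw [h0, h9])
      simp only [Prod.mk.injEq, and_true, true_and] at e3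
      exact pb_ne n e3
    rw [e1]
    simp [lt2, Nat.pos_of_ne_zero e2]
  · rw [if_neg h, if_neg h]

theorem J_flat (hi : IsIdx rot sr idx) (h0 : ∀ i j, idx (i, j, 0) = 0)
    (h9 : ∀ k, idx (0, p0 k, 3) = 0) (i0 : Fin 10) (e : F2)
    (he : ∀ j, lt2 (idx (i0, j, 2)) (idx (i0, j, 1)) = e) (m n : Fin 12) :
    Jf sr orr idx (ef (zr i0 m) (zs i0 m)) (ef (zr i0 n) (zs i0 n)) =
      (cA m n + cC m n + cS m n) + e * (cA m n + cB m n) + tt idx (pb m) (pb n) := by
  have hne : ∀ i j, idx (i, j, 1) ≠ idx (i, j, 2) := by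
    intro i j h
    have := hi.inj _ _ (by rw [sr_1, sr_2]) h
    simp [Prod.ext_iff] at this
  have hne' : ∀ i j, i ≠ 0 → idx (i, j, 2) ≠ idx (i, j, 3) := by
    intro i j hi0 h
    have := hi.inj _ _ (by rw [sr_3 hi0, sr_2]) h
    simp [Prod.ext_iff] at this
  have he' : ∀ j, lt2 (idx (i0, j, 1)) (idx (i0, j, 2)) = 1 + e := by
    intro j
    have h1 := lt2_add (hne i0 j)
    rw [he j] at h1
    have h2 := CharTwo.add_self_eq_zero e
    linear_combination h1 - h2
  rw [Jf_eq hi h0 (isCyc_z i0 n)]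
  have hlast : ∀ k, zs i0 k 9 = sn k := by
    intro k; ext j
    simp [zs, show i0 ≤ (9 : Fin 10) from Fin.le_last i0]
  rw [hlast, hlast, outer_sn, tt_pa h9, tt_pa h9, tt_pa_pb hi h9, Finset.sum_eq_single i0]
  · have hl : ∀ j, loc idx (zr i0 m) (zs i0 m) (zr i0 n) (zs i0 n) i0 j =
        (1 + e) * (rn m j * sn n j) + e * (sn m j * rn n j) + sn m j * sn n j := by
      intro j
      unfold loc zr zs
      rw [he, he']
      by_cases hh : i0 = 0
      · subst hh; simp
      · have e3 : ¬ i0 ≤ i0 - 1 := by rw [fin_pred_facts i0 i0 hh]; exact lt_irrefl _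
        simp [hh, e3]
    simp only [hl, Finset.sum_add_distrib, ← Finset.mul_sum]
    unfold cA cB cC
    ring
  · intro i _ hne2
    apply Finset.sum_eq_zero
    intro j _
    unfold loc zr zs
    rcases lt_or_gt_of_ne hne2 with h | h
    · have e2 : ¬ i0 ≤ i := not_le.mpr h
      by_cases hi0 : i = 0
      · subst hi0; simp [hne2, e2]
      · have e3 : ¬ i0 ≤ i - 1 := by rw [fin_pred_facts i i0 hi0]; exact not_lt.mpr h.le
        simp [hne2, e2, e3]
    · have hi0 : i ≠ 0 := by
        intro h0; subst h0; exact absurd h (Fin.not_lt_zero _)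
      have e2 : i0 ≤ i := h.le
      have e3 : i0 ≤ i - 1 := (fin_pred_facts i i0 hi0).mpr h
      simp only [hne2, e2, e3, hi0, if_true, if_false]
      have h1 := lt2_add (hne' i j hi0)
      have two : (2 : F2) = 0 := rfl
      linear_combination (sn m j * sn n j) * h1 + (sn m j * sn n j) * two
  · intro h; exact absurd (Finset.mem_univ _) h

/-- `0` or `1` -/
def bF (p : Bool) : F2 := if p then 1 else 0

lemma bF_not (p : Bool) : bF (!p) = 1 + bF p := by cases p <;> rfl

lemma tt_swap (hi : IsIdx rot sr idx) {x y : Fin 17} (hxy : x ≠ y) (hw : wd x = wd y) :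
    tt idx y x = 1 + tt idx x y := by
  have hne : idx (0, x, 3) ≠ idx (0, y, 3) := by
    intro h
    have := hi.inj _ _ (by simp [hw]) h
    simp only [Prod.mk.injEq, and_true, true_and] at this
    exact hxy this
  unfold tt
  rw [if_pos hw, if_pos hw.symm]
  have h1 := lt2_add hne
  have h2 := CharTwo.add_self_eq_zero (lt2 (idx (0, x, 3)) (idx (0, y, 3)))
  linear_combination h1 - h2

/-- the comparison as a truth value -/
def tB (idx : Dt → ℕ) (x y : Fin 17) : Bool := decide (idx (0, x, 3) < idx (0, y, 3))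

lemma tt_eq (x y : Fin 17) (hw : wd x = wd y) : tt idx x y = bF (tB idx x y) := by
  unfold tt tB bF lt2
  rw [if_pos hw]
  simp

lemma tt_eq_not (hi : IsIdx rot sr idx) {x y : Fin 17} (hxy : x ≠ y) (hw : wd x = wd y) :
    tt idx y x = bF (!(tB idx x y)) := by
  rw [tt_swap hi hxy hw, tt_eq x y hw, bF_not]

lemma tt_zero {x y : Fin 17} (hw : wd x ≠ wd y) : tt idx x y = 0 := by
  unfold tt; rw [if_neg hw]

lemma tt_self (x : Fin 17) : tt idx x x = 0 := by
  unfold tt; rw [if_pos rfl, lt2_self]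

lemma tr_tB (hi : IsIdx rot sr idx) {x y z : Fin 17} (hxy : x ≠ y) (hyz : y ≠ z) (hxz : x ≠ z)
    (h1 : wd x = wd y) (h2 : wd y = wd z) :
    tr (tB idx x y) (tB idx x z) (tB idx y z) = true := by
  have n1 : idx (0, x, 3) ≠ idx (0, y, 3) := by
    intro h
    have := hi.inj _ _ (by simp [h1]) h
    simp only [Prod.mk.injEq, and_true, true_and] at this
    exact hxy this
  have n2 : idx (0, y, 3) ≠ idx (0, z, 3) := by
    intro h
    have := hi.inj _ _ (by simp [h2]) h
    simp only [Prod.mk.injEq, and_true, true_and] at this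
    exact hyz this
  have n3 : idx (0, x, 3) ≠ idx (0, z, 3) := by
    intro h
    have := hi.inj _ _ (by simp [h1, h2]) h
    simp only [Prod.mk.injEq, and_true, true_and] at this
    exact hxz this
  unfold tr tB
  by_cases a1 : idx (0, x, 3) < idx (0, y, 3) <;> by_cases a2 : idx (0, y, 3) < idx (0, z, 3) <;>
    by_cases a3 : idx (0, x, 3) < idx (0, z, 3) <;> simp [a1, a2, a3] <;> omega

end Pool.Agent.H60.IACR
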