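import Pool.Agent.H60.IACR.Graph

/-!
# The intersection form on the explicit graph
-/

open Finset

namespace Pool.Agent.H60.IACR

/-- indicator of `a < b` -/
def lt2 (a b : ℕ) : F2 := if a < b then 1 else 0

lemma lt2_self (a : ℕ) : lt2 a a = 0 := by simp [lt2]

lemma lt2_add {a b : ℕ} (h : a ≠ b) : lt2 a b + lt2 b a = 1 := by
  unfold lt2
  rcases lt_or_gt_of_ne h with h | h
  · simp [h, h.le]
  · simp [h, h.le]

section

variable {rot : Equiv.Perm Dt} {idx : Dt → ℕ}

/-- `lowSum` at a dart of the nested cycles -/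
lemma low_inl (z : Dt → F2) {p : Dt} {i : Fin 10} {j : Fin 17} (hp : sr p = Sum.inl (i, j)) :
    lowSum sr idx z p = lt2 (idx (i, j, 0)) (idx p) * z (i, j, 0) +
      lt2 (idx (i, j, 1)) (idx p) * z (i, j, 1) + lt2 (idx (i, j, 2)) (idx p) * z (i, j, 2) +
      (if i = 0 then 0 else lt2 (idx (i, j, 3)) (idx p) * z (i, j, 3)) := by
  unfold lowSum
  have h : ∀ q, (if sr q = sr p ∧ idx q < idx p then z q else 0) =
      if sr q = Sum.inl (i, j) then lt2 (idx q) (idx p) * z q else 0 := by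
    intro q
    rw [hp]
    unfold lt2
    by_cases h1 : sr q = Sum.inl (i, j) <;> by_cases h2 : idx q < idx p <;> simp [h1, h2]
  simp only [h]
  exact star_inl (fun q => lt2 (idx q) (idx p) * z q) i j

lemma low_inr (z : Dt → F2) (j : Fin 17) :
    lowSum sr idx z (0, j, 3) =
      ∑ j', if wd j' = wd j then lt2 (idx (0, j', 3)) (idx (0, j, 3)) * z (0, j', 3) else 0 := by
  unfold lowSum
  have h : ∀ q, (if sr q = sr ((0, j, 3) : Dt) ∧ idx q < idx (0, j, 3) then z q else 0) =
      if sr q = Sum.inr (wd j) then lt2 (idx q) (idx (0, j, 3)) * z q else 0 := by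
    intro q
    rw [sr_03]
    unfold lt2
    by_cases h1 : sr q = Sum.inr (wd j) <;> by_cases h2 : idx q < idx (0, j, 3) <;> simp [h1, h2]
  simp only [h]
  exact star_inr (fun q => lt2 (idx q) (idx (0, j, 3)) * z q) (wd j)

/-- local term at a vertex of the nested cycles -/
def loc (idx : Dt → ℕ) (r s r' s' : Fin 10 → Fin 17 → F2) (i : Fin 10) (j : Fin 17) : F2 :=
  lt2 (idx (i, j, 1)) (idx (i, j, 2)) * (r i j * s' i j) +
    lt2 (idx (i, j, 2)) (idx (i, j, 1)) * (s i j * r' i j) +
    (if i = 0 then 0 else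
      lt2 (idx (i, j, 1)) (idx (i, j, 3)) * (r i j * s' (i - 1) j) +
      lt2 (idx (i, j, 3)) (idx (i, j, 1)) * (s (i - 1) j * r' i j) +
      lt2 (idx (i, j, 2)) (idx (i, j, 3)) * (s i j * s' (i - 1) j) +
      lt2 (idx (i, j, 3)) (idx (i, j, 2)) * (s (i - 1) j * s' i j)) + s i j * s' i j

/-- term at the outer vertices -/
def outer (idx : Dt → ℕ) (s s' : Fin 17 → F2) : F2 :=
  ∑ j, ∑ j', if wd j' = wd j then lt2 (idx (0, j', 3)) (idx (0, j, 3)) * (s j' * s' j) else 0

/-- the formula for the intersection form -/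
theorem Jf_eq (hi : IsIdx rot sr idx) (h0 : ∀ i j, idx (i, j, 0) = 0)
    {r s r' s' : Fin 10 → Fin 17 → F2} (h : IsCyc r' s') :
    Jf sr orr idx (ef r s) (ef r' s') =
      ∑ i, ∑ j, loc idx r s r' s' i j + outer idx (s 9) (s' 9) := by
  have hpos : ∀ i j (t : Fin 4), t ≠ 0 → sr (i, j, t) = Sum.inl (i, j) → 0 < idx (i, j, t) := by
    intro i j t ht hs
    rcases Nat.eq_zero_or_pos (idx (i, j, t)) with h1 | h1
    · exfalso
      have := hi.inj (i, j, t) (i, j, 0) (by rw [hs, sr_0]) (by rw [h1, h0])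
      simp [Prod.ext_iff] at this
      exact ht this
    · exact h1
  have hlt : ∀ i j (t : Fin 4), t ≠ 0 → sr (i, j, t) = Sum.inl (i, j) →
      lt2 0 (idx (i, j, t)) = 1 := by
    intro i j t ht hs
    simp [lt2, hpos i j t ht hs]
  have hlt' : ∀ n, lt2 n 0 = 0 := by intro n; simp [lt2]
  unfold Jf
  rw [sum_dt, sum_dt]
  -- the terms of the darts `(i, j, 3)`
  have key : ∀ i j, (lowSum sr idx (ef r s) (i, j, 0) * ef r' s' (i, j, 0) +
      lowSum sr idx (ef r s) (i, j, 1) * ef r' s' (i, j, 1) +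
      lowSum sr idx (ef r s) (i, j, 2) * ef r' s' (i, j, 2) +
      lowSum sr idx (ef r s) (i, j, 3) * ef r' s' (i, j, 3)) =
      loc idx r s r' s' i j + s i j * s' i j + r i (j - 1) * r' i (j - 1) +
        (if i = 0 then lowSum sr idx (ef r s) (0, j, 3) * s' 9 j else 0) := by
    intro i j
    rw [low_inl (p := (i, j, 0)) _ (sr_0 i j), low_inl (p := (i, j, 1)) _ (sr_1 i j),
      low_inl (p := (i, j, 2)) _ (sr_2 i j)]
    have hd := h.disc i j
    simp only [h0, hlt', lt2_self, ef_0, ef_1, ef_2, ef_3]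
    rw [hlt i j 1 (by decide) (sr_1 i j), hlt i j 2 (by decide) (sr_2 i j)]
    unfold loc
    have two : (2 : F2) = 0 := rfl
    by_cases hi0 : i = 0
    · subst hi0
      have e9 : (0 : Fin 10) - 1 = 9 := by decide
      simp only [if_true, e9] at hd ⊢
      linear_combination (r 0 (j - 1)) * hd - (s 0 j * s' 0 j + r 0 (j - 1) * r' 0 (j - 1)) * two
    · rw [low_inl (p := (i, j, 3)) _ (sr_3 hi0 j)]
      simp only [h0, lt2_self, ef_0, ef_1, ef_2, ef_3]
      rw [hlt i j 3 (by decide) (sr_3 hi0 j)]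
      simp only [hi0, if_false] at hd ⊢
      linear_combination (r i (j - 1)) * hd - (s i j * s' i j + r i (j - 1) * r' i (j - 1)) * two
  simp only [key, Finset.sum_add_distrib]
  have e1 : ∀ i : Fin 10, ∑ j, r i (j - 1) * r' i (j - 1) = ∑ j, r i j * r' i j := by
    intro i
    exact Equiv.sum_comp (Equiv.subRight (1 : Fin 17)) (fun j => r i j * r' i j)
  have e2 : ∑ i : Fin 10, ∑ j, (if i = 0 then lowSum sr idx (ef r s) (0, j, 3) * s' 9 j else 0) =
      outer idx (s 9) (s' 9) := by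
    rw [Finset.sum_eq_single 0]
    · unfold outer
      apply Finset.sum_congr rfl
      intro j _
      rw [if_pos rfl, low_inr, Finset.sum_mul]
      apply Finset.sum_congr rfl
      intro j' _
      have e9 : (0 : Fin 10) - 1 = 9 := by decide
      rw [ef_3, e9]
      split_ifs <;> ring
    · intro i _ hi'
      apply Finset.sum_eq_zero
      intro j _
      rw [if_neg hi']
    · intro h; exact absurd (Finset.mem_univ _) h
  have e3 : ∑ i : Fin 10, ∑ j, ((if orr (i, j, 0) then ef r s (i, j, 0) * ef r' s' (i, j, 0) else 0)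
      + (if orr (i, j, 1) then ef r s (i, j, 1) * ef r' s' (i, j, 1) else 0)
      + (if orr (i, j, 2) then ef r s (i, j, 2) * ef r' s' (i, j, 2) else 0)
      + (if orr (i, j, 3) then ef r s (i, j, 3) * ef r' s' (i, j, 3) else 0)) =
      ∑ i : Fin 10, ∑ j, (r i j * r' i j) + ∑ i : Fin 10, ∑ j, (s i j * s' i j) := by
    rw [← Finset.sum_add_distrib]
    apply Finset.sum_congr rfl
    intro i _
    rw [← Finset.sum_add_distrib]
    apply Finset.sum_congr rfl
    intro j _
    simp [orr]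
  simp only [Finset.sum_add_distrib] at e3
  rw [e2]
  simp only [e1]
  rw [e3]
  have c1 := CharTwo.add_self_eq_zero (∑ i : Fin 10, ∑ j, (r i j * r' i j))
  have c2 := CharTwo.add_self_eq_zero (∑ i : Fin 10, ∑ j, (s i j * s' i j))
  linear_combination c1 + c2

end

end Pool.Agent.H60.IACR
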