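import Pool.Agent.H60.IACR.Upper

/-!
# Independent algebraic crossing number zero does not imply embeddability

There is a finite simple graph with a drawing on the closed orientable surface `M_4` of genus `4` in
which every pair of independent edges crosses equally often from the left and from the right, and
which has no drawing without crossings on `M_4`.

The graph consists of ten nested 17-gons, joined by radial edges (a planar piece), and of five
further vertices joined to the vertices of the outermost 17-gon, of degrees 4, 4, 4, 3, 2, in the
cyclic pattern `1 0 2 1 3 2 3 0 3 1 4 0 2 1 4 0 2`. The drawing has twelve crossings. That every
rotation system has Euler genus at least ten is proved with the intersection form over `F₂`.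
-/

namespace Pool.Agent.H60.IACR.GenusFour

open Pool.Agent.H60.IACR

theorem genus_four : ∃ (V : Type) (_ : Fintype V) (G : SimpleGraph V),
    IacrZero 4 G ∧ ¬ CrZero 4 G :=
  ⟨Vt, inferInstance, K, iacrZero, not_crZero⟩

end Pool.Agent.H60.IACR.GenusFour
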