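import Pool.Agent.H60.IACR.Order

/-!
# The explicit graph: darts, reversal, sources, cycles
-/

open Finset

namespace Pool.Agent.H60.IACR

/-- darts: `(i, j, t)`, at position `j` of the `i`-th nested cycle, `t = 0, 1, 2, 3` for
left, right, out, in; the darts `(0, j, 3)` are the darts at the five outer vertices -/
abbrev Dt := Fin 10 × Fin 17 × Fin 4

/-- vertices -/
abbrev Vt := (Fin 10 × Fin 17) ⊕ Fin 5

/-- the outer vertex joined to position `j` -/
def wd : Fin 17 → Fin 5 := ![1, 0, 2, 1, 3, 2, 3, 0, 3, 1, 4, 0, 2, 1, 4, 0, 2]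

/-- reversal -/
def rv (d : Dt) : Dt := match d.2.2 with
  | 0 => (d.1, d.2.1 - 1, 1)
  | 1 => (d.1, d.2.1 + 1, 0)
  | 2 => (d.1 + 1, d.2.1, 3)
  | 3 => (d.1 - 1, d.2.1, 2)

/-- source -/
def sr (d : Dt) : Vt := if d.2.2 = 3 ∧ d.1 = 0 then Sum.inr (wd d.2.1) else Sum.inl (d.1, d.2.1)

/-- orientation of the edges -/
def orr (d : Dt) : Prop := d.2.2 = 1 ∨ d.2.2 = 2

instance : DecidablePred orr := fun d => by unfold orr; infer_instance

@[simp] lemma rv_0 (i j) : rv (i, j, 0) = (i, j - 1, 1) := rfl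
@[simp] lemma rv_1 (i j) : rv (i, j, 1) = (i, j + 1, 0) := rfl
@[simp] lemma rv_2 (i j) : rv (i, j, 2) = (i + 1, j, 3) := rfl
@[simp] lemma rv_3 (i j) : rv (i, j, 3) = (i - 1, j, 2) := rfl

lemma dt_cases {C : Dt → Prop} (h0 : ∀ i j, C (i, j, 0)) (h1 : ∀ i j, C (i, j, 1))
    (h2 : ∀ i j, C (i, j, 2)) (h3 : ∀ i j, C (i, j, 3)) : ∀ d, C d := by
  rintro ⟨i, j, t⟩
  fin_cases t
  · exact h0 i j
  · exact h1 i j
  · exact h2 i j
  · exact h3 i j

lemma rv_rv : ∀ d, rv (rv d) = d := by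
  apply dt_cases <;> intro i j <;> simp

lemma rv_ne : ∀ d, rv d ≠ d := by
  apply dt_cases <;> intro i j h <;> simp [Prod.ext_iff] at h

/-- reversal as a permutation -/
def rvP : Equiv.Perm Dt := Function.Involutive.toPerm rv rv_rv

@[simp] lemma rvP_apply (d : Dt) : rvP d = rv d := rfl

lemma orr_rv : ∀ d, orr (rvP d) ↔ ¬ orr d := by
  apply dt_cases <;> intro i j <;> simp [orr]

lemma sum_dt {A : Type*} [AddCommMonoid A] (f : Dt → A) :
    ∑ d, f d = ∑ i, ∑ j, (f (i, j, 0) + f (i, j, 1) + f (i, j, 2) + f (i, j, 3)) := by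
  rw [Fintype.sum_prod_type]
  apply Finset.sum_congr rfl
  intro i _
  rw [Fintype.sum_prod_type]
  apply Finset.sum_congr rfl
  intro j _
  rw [Fin.sum_univ_four]

@[simp] lemma sr_0 (i j) : sr (i, j, 0) = Sum.inl (i, j) := by simp [sr]
@[simp] lemma sr_1 (i j) : sr (i, j, 1) = Sum.inl (i, j) := by simp [sr]
@[simp] lemma sr_2 (i j) : sr (i, j, 2) = Sum.inl (i, j) := by simp [sr]
@[simp] lemma sr_03 (j) : sr (0, j, 3) = Sum.inr (wd j) := by simp [sr]
lemma sr_3 {i : Fin 10} (hi : i ≠ 0) (j) : sr (i, j, 3) = Sum.inl (i, j) := by simp [sr, hi]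

lemma sr_3' (i j) : sr (i, j, 3) = if i = 0 then Sum.inr (wd j) else Sum.inl (i, j) := by
  simp [sr]

/-- sum over the star of a vertex of the nested cycles -/
lemma star_inl (f : Dt → F2) (i : Fin 10) (j : Fin 17) :
    ∑ q, (if sr q = Sum.inl (i, j) then f q else 0) =
      f (i, j, 0) + f (i, j, 1) + f (i, j, 2) + (if i = 0 then 0 else f (i, j, 3)) := by
  rw [sum_dt, Finset.sum_eq_single i, Finset.sum_eq_single j]
  · rw [sr_0, sr_1, sr_2, sr_3']
    by_cases hi : i = 0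
    · simp [hi]
    · simp [hi]
  · intro j' _ hj'
    rw [sr_0, sr_1, sr_2, sr_3']
    by_cases hi : i = 0
    · simp [hi, hj']
    · simp [hi, hj']
  · intro h; exact absurd (Finset.mem_univ _) h
  · intro i' _ hi'
    apply Finset.sum_eq_zero
    intro j' _
    rw [sr_0, sr_1, sr_2, sr_3']
    by_cases hi : i' = 0
    · subst hi
      simp [hi']
    · simp [hi, hi']
  · intro h; exact absurd (Finset.mem_univ _) h

/-- sum over the star of an outer vertex -/
lemma star_inr (f : Dt → F2) (k : Fin 5) :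
    ∑ q, (if sr q = Sum.inr k then f q else 0) = ∑ j, if wd j = k then f (0, j, 3) else 0 := by
  rw [sum_dt, Finset.sum_eq_single 0]
  · apply Finset.sum_congr rfl
    intro j _
    rw [sr_0, sr_1, sr_2, sr_03]
    simp
  · intro i' _ hi'
    apply Finset.sum_eq_zero
    intro j' _
    rw [sr_0, sr_1, sr_2, sr_3 hi']
    simp
  · intro h; exact absurd (Finset.mem_univ _) h

/-- the edge function with value `r i j` on the edge from `(i, j)` to `(i, j + 1)` and `s i j` on
the edge going out of `(i, j)` -/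
def ef (r s : Fin 10 → Fin 17 → F2) (d : Dt) : F2 := match d.2.2 with
  | 0 => r d.1 (d.2.1 - 1)
  | 1 => r d.1 d.2.1
  | 2 => s d.1 d.2.1
  | 3 => s (d.1 - 1) d.2.1

@[simp] lemma ef_0 (r s i j) : ef r s (i, j, 0) = r i (j - 1) := rfl
@[simp] lemma ef_1 (r s i j) : ef r s (i, j, 1) = r i j := rfl
@[simp] lemma ef_2 (r s i j) : ef r s (i, j, 2) = s i j := rfl
@[simp] lemma ef_3 (r s i j) : ef r s (i, j, 3) = s (i - 1) j := rfl

lemma ef_rv (r s) : ∀ d, ef r s (rvP d) = ef r s d := by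
  apply dt_cases <;> intro i j <;> simp

/-- `ef r s` is a cycle -/
structure IsCyc (r s : Fin 10 → Fin 17 → F2) : Prop where
  disc : ∀ i j, r i (j - 1) + r i j + s i j + (if i = 0 then 0 else s (i - 1) j) = 0
  out : ∀ k, ∑ j, (if wd j = k then s 9 j else 0) = 0

lemma IsCyc.starSum {r s : Fin 10 → Fin 17 → F2} (h : IsCyc r s) (v : Vt) :
    starSum sr (ef r s) v = 0 := by
  unfold Pool.Agent.H60.IACR.starSum
  rcases v with ⟨i, j⟩ | k
  · rw [star_inl]
    exact h.disc i j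
  · rw [star_inr]
    exact h.out k

end Pool.Agent.H60.IACR
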