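import Pool.Agent.H60.IACR.Graph
import Pool.Agent.H60.IACR.Defs

/-!
# The explicit graph as a simple graph
-/

open Finset

namespace Pool.Agent.H60.IACR

set_option maxRecDepth 100000

/-- inverse of the map from darts to pairs of vertices -/
def invD (u v : Vt) : Dt := match u, v with
  | Sum.inl (i, j), Sum.inl (i', j') =>
    if i' = i then (if j' = j + 1 then (i, j, 1) else (i, j, 0))
    else if i' = i + 1 then (i, j, 2) else (i, j, 3)
  | Sum.inl (i, j), Sum.inr _ => (i, j, 2)
  | Sum.inr _, Sum.inl (_, j) => (0, j, 3)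
  | Sum.inr _, Sum.inr _ => (0, 0, 0)

theorem invD_spec : ∀ d : Dt, invD (sr d) (sr (rv d)) = d := by decide +kernel

theorem sr_ne : ∀ d : Dt, sr d ≠ sr (rv d) := by decide +kernel

/-- The explicit graph: ten nested 17-gons joined by radial edges, and five further vertices joined
to the positions of the last 17-gon according to `wd`. -/
def K : SimpleGraph Vt where
  Adj u v := ∃ d : Dt, sr d = u ∧ sr (rv d) = v
  symm := ⟨by
    rintro u v ⟨d, h1, h2⟩
    exact ⟨rv d, h2, by rw [rv_rv, h1]⟩⟩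
  loopless := ⟨by
    rintro u ⟨d, h1, h2⟩
    exact sr_ne d (h1.trans h2.symm)⟩

/-- the dart of `K` -/
def toD (d : Dt) : K.Dart := ⟨(sr d, sr (rv d)), ⟨d, rfl, rfl⟩⟩

/-- the darts of `K` -/
def eD : Dt ≃ K.Dart where
  toFun := toD
  invFun a := invD a.fst a.snd
  left_inv := invD_spec
  right_inv := by
    rintro ⟨⟨u, v⟩, d, h1, h2⟩
    simp only at h1 h2
    subst h1; subst h2
    change toD (invD (sr d) (sr (rv d))) = _
    rw [invD_spec]
    rfl

lemma eD_fst (d : Dt) : (eD d).fst = sr d := rfl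
lemma eD_snd (d : Dt) : (eD d).snd = sr (rv d) := rfl
lemma eD_symm (d : Dt) : (eD d).symm = eD (rv d) := by
  apply SimpleGraph.Dart.ext
  change (sr (rv d), sr d) = (sr (rv d), sr (rv (rv d)))
  rw [rv_rv]
lemma eDs_symm (a : K.Dart) : eD.symm a.symm = rv (eD.symm a) := by
  rw [Equiv.symm_apply_eq, ← eD_symm, Equiv.apply_symm_apply]
lemma eDs_fst (a : K.Dart) : sr (eD.symm a) = a.fst := by
  rw [← eD_fst, Equiv.apply_symm_apply]
lemma eDs_snd (a : K.Dart) : sr (rv (eD.symm a)) = a.snd := by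
  rw [← eD_snd, Equiv.apply_symm_apply]

end Pool.Agent.H60.IACR
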