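import Pool.Agent.H60.IACR.Form

/-!
# If no layer is flat, the Euler genus is at least ten
-/

open Finset Module

namespace Pool.Agent.H60.IACR

variable {rot : Equiv.Perm Dt} {idx : Dt → ℕ}

/-- the `i0`-th nested cycle -/
def Cr (i0 : Fin 10) : Fin 10 → Fin 17 → F2 := fun i _ => if i = i0 then 1 else 0

lemma isCyc_C (i0 : Fin 10) : IsCyc (Cr i0) 0 := by
  constructor
  · intro i j
    have := CharTwo.add_self_eq_zero (Cr i0 i j)
    simp only [Pi.zero_apply, ite_self, add_zero]
    exact this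
  · intro k; simp

lemma outer_zero_left (s' : Fin 17 → F2) : outer idx 0 s' = 0 := by
  simp [outer]

lemma outer_zero_right (s : Fin 17 → F2) : outer idx s 0 = 0 := by
  simp [outer]

lemma J_C_left (hi : IsIdx rot sr idx) (h0 : ∀ i j, idx (i, j, 0) = 0)
    {r' s' : Fin 10 → Fin 17 → F2} (h : IsCyc r' s') (i0 : Fin 10) :
    Jf sr orr idx (ef (Cr i0) 0) (ef r' s') =
      ∑ j, (lt2 (idx (i0, j, 1)) (idx (i0, j, 2)) * s' i0 j +
        if i0 = 0 then 0 else lt2 (idx (i0, j, 1)) (idx (i0, j, 3)) * s' (i0 - 1) j) := by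
  rw [Jf_eq hi h0 h, Finset.sum_eq_single i0]
  · have : (0 : Fin 10 → Fin 17 → F2) 9 = 0 := rfl
    rw [this, outer_zero_left, add_zero]
    apply Finset.sum_congr rfl
    intro j _
    unfold loc Cr
    by_cases hh : i0 = 0
    · subst hh; simp
    · simp [hh]
  · intro i _ hne
    apply Finset.sum_eq_zero
    intro j _
    simp [loc, Cr, hne]
  · intro h; exact absurd (Finset.mem_univ _) h

lemma J_C_right (hi : IsIdx rot sr idx) (h0 : ∀ i j, idx (i, j, 0) = 0)
    (r s : Fin 10 → Fin 17 → F2) (i0 : Fin 10) :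
    Jf sr orr idx (ef r s) (ef (Cr i0) 0) =
      ∑ j, (lt2 (idx (i0, j, 2)) (idx (i0, j, 1)) * s i0 j +
        if i0 = 0 then 0 else lt2 (idx (i0, j, 3)) (idx (i0, j, 1)) * s (i0 - 1) j) := by
  rw [Jf_eq hi h0 (isCyc_C i0), Finset.sum_eq_single i0]
  · have : (0 : Fin 10 → Fin 17 → F2) 9 = 0 := rfl
    rw [this, outer_zero_right, add_zero]
    apply Finset.sum_congr rfl
    intro j _
    unfold loc Cr
    by_cases hh : i0 = 0
    · subst hh; simp
    · simp [hh]
  · intro i _ hne
    apply Finset.sum_eq_zero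
    intro j _
    simp [loc, Cr, hne]
  · intro h; exact absurd (Finset.mem_univ _) h

/-- the inner cycle of the `a`-th layer -/
def lev : Fin 5 → Fin 10 := ![0, 2, 4, 6, 8]

lemma lev_sub (a b : Fin 5) : lev a - 1 ≠ lev b := by revert a b; decide
lemma lev_inj {a b : Fin 5} : a ≠ b → lev a ≠ lev b := by revert a b; decide
lemma lev_ne_succ (a b : Fin 5) : lev a ≠ lev b + 1 := by revert a b; decide
lemma lev_ne_nine (a : Fin 5) : (9 : Fin 10) ≠ lev a := by revert a; decide
lemma lev_succ_ne (a : Fin 5) : lev a + 1 ≠ 0 := by revert a; decide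

lemma sub_one_eq_iff {n : ℕ} [NeZero n] (i j : Fin n) : i - 1 = j ↔ i = j + 1 := by
  constructor
  · intro h; rw [← h]; simp
  · intro h; rw [h]; simp

/-- quadrilaterals -/
def Qr (i0 : Fin 10) (j0 : Fin 17) : Fin 10 → Fin 17 → F2 := fun i j =>
  (if i = i0 then (if j = j0 then 1 else 0) else 0) +
    (if i = i0 + 1 then (if j = j0 then 1 else 0) else 0)

def Qs (i0 : Fin 10) (j0 : Fin 17) : Fin 10 → Fin 17 → F2 := fun i j =>
  if i = i0 then (if j = j0 then 1 else 0) + (if j = j0 + 1 then 1 else 0) else 0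

lemma isCyc_Q (a : Fin 5) (j0 : Fin 17) : IsCyc (Qr (lev a) j0) (Qs (lev a) j0) := by
  constructor
  · intro i j
    unfold Qr Qs
    have h5 : (j - 1 = j0) ↔ (j = j0 + 1) := sub_one_eq_iff j j0
    have h3 : (i - 1 = lev a) ↔ (i = lev a + 1) := sub_one_eq_iff i (lev a)
    generalize hx : (if j = j0 then (1 : F2) else 0) = x
    have hy : (if j - 1 = j0 then (1 : F2) else 0) = (if j = j0 + 1 then (1 : F2) else 0) := by
      simp [h5]
    rw [hy]
    generalize (if j = j0 + 1 then (1 : F2) else 0) = y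
    have two : (2 : F2) = 0 := rfl
    by_cases e1 : i = lev a
    · subst e1
      have e2 := lev_ne_succ a a
      simp only [h3, e2, if_true, if_false, ite_self]
      linear_combination (x + y) * two
    · by_cases e2 : i = lev a + 1
      · subst e2
        have e3 := lev_succ_ne a
        simp only [h3, e1, e3, if_true, if_false]
        linear_combination (x + y) * two
      · simp [h3, e1, e2]
  · intro k
    simp [Qs, lev_ne_nine a]

lemma sum_two (g : Fin 17 → F2) (j0 : Fin 17) :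
    ∑ j, g j * ((if j = j0 then 1 else 0) + (if j = j0 + 1 then 1 else 0)) =
      g j0 + g (j0 + 1) := by
  simp [mul_add, Finset.sum_add_distrib]

lemma J_C_Q (hi : IsIdx rot sr idx) (h0 : ∀ i j, idx (i, j, 0) = 0) (a b : Fin 5) (j0 : Fin 17) :
    Jf sr orr idx (ef (Cr (lev a)) 0) (ef (Qr (lev b) j0) (Qs (lev b) j0)) =
      if a = b then lt2 (idx (lev a, j0, 1)) (idx (lev a, j0, 2)) +
        lt2 (idx (lev a, j0 + 1, 1)) (idx (lev a, j0 + 1, 2)) else 0 := by
  rw [J_C_left hi h0 (isCyc_Q b j0)]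
  have h1 : lev a - 1 ≠ lev b := lev_sub a b
  have h2 : ∀ j, Qs (lev b) j0 (lev a - 1) j = 0 := by intro j; simp [Qs, h1]
  by_cases hab : a = b
  · subst hab
    simp only [h2, mul_zero, ite_self, add_zero, if_true]
    simp only [Qs, if_true]
    exact sum_two (fun j => lt2 (idx (lev a, j, 1)) (idx (lev a, j, 2))) j0
  · have h3 : lev a ≠ lev b := lev_inj hab
    have h4 : ∀ j, Qs (lev b) j0 (lev a) j = 0 := by intro j; simp [Qs, h3]
    simp [h2, h4, hab]

lemma J_Q_C (hi : IsIdx rot sr idx) (h0 : ∀ i j, idx (i, j, 0) = 0) (a b : Fin 5) (j0 : Fin 17) :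
    Jf sr orr idx (ef (Qr (lev b) j0) (Qs (lev b) j0)) (ef (Cr (lev a)) 0) =
      if a = b then lt2 (idx (lev a, j0, 2)) (idx (lev a, j0, 1)) +
        lt2 (idx (lev a, j0 + 1, 2)) (idx (lev a, j0 + 1, 1)) else 0 := by
  rw [J_C_right hi h0]
  have h1 : lev a - 1 ≠ lev b := lev_sub a b
  have h2 : ∀ j, Qs (lev b) j0 (lev a - 1) j = 0 := by intro j; simp [Qs, h1]
  by_cases hab : a = b
  · subst hab
    simp only [h2, mul_zero, ite_self, add_zero, if_true]
    simp only [Qs, if_true]
    exact sum_two (fun j => lt2 (idx (lev a, j, 2)) (idx (lev a, j, 1))) j0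
  · have h3 : lev a ≠ lev b := lev_inj hab
    have h4 : ∀ j, Qs (lev b) j0 (lev a) j = 0 := by intro j; simp [Qs, h3]
    simp [h2, h4, hab]

lemma J_C_C (hi : IsIdx rot sr idx) (h0 : ∀ i j, idx (i, j, 0) = 0) (a b : Fin 10) :
    Jf sr orr idx (ef (Cr a) 0) (ef (Cr b) 0) = 0 := by
  rw [J_C_left hi h0 (isCyc_C b)]
  simp

lemma J_Q_Q (hi : IsIdx rot sr idx) (h0 : ∀ i j, idx (i, j, 0) = 0) {a b : Fin 5} (hab : a ≠ b)
    (j0 j1 : Fin 17) :
    Jf sr orr idx (ef (Qr (lev a) j0) (Qs (lev a) j0)) (ef (Qr (lev b) j1) (Qs (lev b) j1)) =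
      0 := by
  rw [Jf_eq hi h0 (isCyc_Q b j1)]
  have h9 : Qs (lev a) j0 9 = 0 := by
    ext j
    simp [Qs, lev_ne_nine a]
  rw [h9, outer_zero_left, add_zero]
  apply Finset.sum_eq_zero
  intro i _
  apply Finset.sum_eq_zero
  intro j _
  -- every product vanishes
  have e1 : i = lev a → i ≠ lev b := fun h => h ▸ lev_inj hab
  have e2 : i = lev a → i ≠ lev b + 1 := fun h => h ▸ lev_ne_succ a b
  have e3 : i = lev a + 1 → i ≠ lev b := fun h => h ▸ (lev_ne_succ b a).symm
  have e4 : i = lev a + 1 → i ≠ lev b + 1 := fun h h' =>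
    lev_inj hab (add_right_cancel (h.symm.trans h'))
  have f : ∀ c : Fin 5, (i - 1 = lev c) ↔ (i = lev c + 1) := by
    intro c
    constructor
    · intro h; rw [← h]; simp
    · intro h; rw [h]; simp
  by_cases c1 : i = lev a ∨ i = lev a + 1
  · have d1 : i ≠ lev b := by
      rcases c1 with c1 | c1
      · exact e1 c1
      · exact e3 c1
    have d2 : i ≠ lev b + 1 := by
      rcases c1 with c1 | c1
      · exact e2 c1
      · exact e4 c1
    have z1 : ∀ j, Qr (lev b) j1 i j = 0 := by intro j; simp [Qr, d1, d2]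
    have z2 : ∀ j, Qs (lev b) j1 i j = 0 := by intro j; simp [Qs, d1]
    have z3 : ∀ j, Qs (lev b) j1 (i - 1) j = 0 := by intro j; simp [Qs, f b, d2]
    simp [loc, z1, z2, z3]
  · push Not at c1
    have z1 : ∀ j, Qr (lev a) j0 i j = 0 := by intro j; simp [Qr, c1.1, c1.2]
    have z2 : ∀ j, Qs (lev a) j0 i j = 0 := by intro j; simp [Qs, c1.1]
    have z3 : ∀ j, Qs (lev a) j0 (i - 1) j = 0 := by intro j; simp [Qs, f a, c1.2]
    simp [loc, z1, z2, z3]

/-- the families of cycles -/
def famR (j0 : Fin 5 → Fin 17) : Fin 5 × Bool → Fin 10 → Fin 17 → F2 := fun x =>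
  if x.2 then Qr (lev x.1) (j0 x.1) else Cr (lev x.1)

def famS (j0 : Fin 5 → Fin 17) : Fin 5 × Bool → Fin 10 → Fin 17 → F2 := fun x =>
  if x.2 then Qs (lev x.1) (j0 x.1) else 0

lemma isCyc_fam (j0 : Fin 5 → Fin 17) (x : Fin 5 × Bool) : IsCyc (famR j0 x) (famS j0 x) := by
  obtain ⟨a, b⟩ := x
  cases b
  · exact isCyc_C _
  · exact isCyc_Q a _

/-- span of the rows of the intersection matrix -/
theorem span_top (hi : IsIdx rot sr idx) (h0 : ∀ i j, idx (i, j, 0) = 0) (j0 : Fin 5 → Fin 17)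
    (hj : ∀ a, lt2 (idx (lev a, j0 a, 2)) (idx (lev a, j0 a, 1)) +
        lt2 (idx (lev a, j0 a + 1, 2)) (idx (lev a, j0 a + 1, 1)) = 1) :
    Submodule.span F2 (Set.range fun k : Fin 5 × Bool => (fun l : Fin 5 × Bool =>
      Jf sr orr idx (ef (famR j0 k) (famS j0 k)) (ef (famR j0 l) (famS j0 l)))) = ⊤ := by
  have hne : ∀ i j, idx (i, j, 1) ≠ idx (i, j, 2) := by
    intro i j h
    have := hi.inj _ _ (by rw [sr_1, sr_2]) h
    simp [Prod.ext_iff] at this
  have hj' : ∀ a, lt2 (idx (lev a, j0 a, 1)) (idx (lev a, j0 a, 2)) +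
        lt2 (idx (lev a, j0 a + 1, 1)) (idx (lev a, j0 a + 1, 2)) = 1 := by
    intro a
    have h1 := lt2_add (hne (lev a) (j0 a))
    have h2 := lt2_add (hne (lev a) (j0 a + 1))
    have h3 := hj a
    have two : (2 : F2) = 0 := rfl
    linear_combination h1 + h2 - h3
  set row : Fin 5 × Bool → Fin 5 × Bool → F2 := fun k l =>
    Jf sr orr idx (ef (famR j0 k) (famS j0 k)) (ef (famR j0 l) (famS j0 l)) with hrow
  -- the values
  have v1 : ∀ a b, row (a, false) (b, false) = 0 := fun a b => J_C_C hi h0 _ _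
  have v2 : ∀ a b, row (a, false) (b, true) = if a = b then 1 else 0 := by
    intro a b
    have := J_C_Q hi h0 a b (j0 b)
    rw [hrow]
    simp only [famR, famS, Bool.false_eq_true, if_false, if_true]
    rw [this]
    by_cases hab : a = b
    · subst hab; simp only [if_true]; exact hj' a
    · simp [hab]
  have v3 : ∀ a b, row (a, true) (b, false) = if a = b then 1 else 0 := by
    intro a b
    have := J_Q_C hi h0 b a (j0 a)
    rw [hrow]
    simp only [famR, famS, Bool.false_eq_true, if_false, if_true]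
    rw [this]
    by_cases hab : a = b
    · subst hab; simp only [if_true]; exact hj a
    · have : ¬ b = a := fun h => hab h.symm
      simp [hab, this]
  have v4 : ∀ a b, a ≠ b → row (a, true) (b, true) = 0 := fun a b hab => J_Q_Q hi h0 hab _ _
  have u1 : ∀ a, row (a, false) = Pi.single (a, true) 1 := by
    intro a
    ext ⟨b, c⟩
    cases c
    · rw [v1]; simp [Pi.single_apply]
    · rw [v2]
      simp only [Pi.single_apply, Prod.mk.injEq, and_true]
      by_cases hab : a = b
      · simp [hab]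
      · have : ¬ b = a := fun h => hab h.symm
        simp [hab, this]
  have u2 : ∀ a, row (a, true) + row (a, true) (a, true) • row (a, false) =
      Pi.single (a, false) 1 := by
    intro a
    ext ⟨b, c⟩
    cases c
    · simp only [Pi.add_apply, Pi.smul_apply, v1, v3, smul_zero, add_zero, Pi.single_apply,
        Prod.mk.injEq, and_true]
      by_cases hab : a = b
      · simp [hab]
      · have : ¬ b = a := fun h => hab h.symm
        simp [hab, this]
    · simp only [Pi.add_apply, Pi.smul_apply, v2, smul_eq_mul, Pi.single_apply,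
        Prod.mk.injEq, Bool.true_eq_false, and_false, if_false]
      by_cases hab : a = b
      · subst hab
        simp only [if_true, mul_one]
        exact CharTwo.add_self_eq_zero _
      · simp [v4 a b hab, hab]
  rw [eq_top_iff]
  have hb := (Pi.basisFun F2 (Fin 5 × Bool)).span_eq
  rw [← hb, Submodule.span_le]
  rintro _ ⟨⟨a, c⟩, rfl⟩
  rw [Pi.basisFun_apply]
  cases c
  · rw [← u2 a]
    apply Submodule.add_mem
    · exact Submodule.subset_span ⟨_, rfl⟩
    · apply Submodule.smul_mem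
      exact Submodule.subset_span ⟨_, rfl⟩
  · rw [← u1 a]
    exact Submodule.subset_span ⟨_, rfl⟩

end Pool.Agent.H60.IACR
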