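import Pool.Agent.H60.IACR.Rank

/-!
# Explicit potentials and the explicit intersection form
-/

open Module Finset

namespace Pool.Agent.H60.IACR

variable {P V : Type*} [Fintype P] [DecidableEq P] [Fintype V] [DecidableEq V]
  (rot rev : Equiv.Perm P) (src : P → V)

/-- `idx` numbers the darts of every star in the cyclic order given by `rot` -/
structure IsIdx (idx : P → ℕ) : Prop where
  inj : ∀ p q, src p = src q → idx p = idx q → p = q
  step : ∀ p, idx (rot p) = idx p + 1 ∨
    (idx (rot p) = 0 ∧ ∀ q, src q = src p → idx q ≤ idx p)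

omit [Fintype V] [DecidableEq V] in
theorem exists_idx (hsrc : ∀ p, src (rot p) = src p)
    (hcyc : ∀ p q, src p = src q → rot.SameCycle p q)
    (b : V → P) (hb : ∀ v, src (b v) = v) :
    ∃ idx : P → ℕ, IsIdx rot src idx ∧ ∀ v, idx (b v) = 0 := by
  have hex : ∀ p, ∃ n : ℕ, (rot ^ n) (b (src p)) = p ∧
      ∀ m : ℕ, (rot ^ m) (b (src p)) = p → n ≤ m := by
    intro p
    have h := (hcyc (b (src p)) p (hb _)).exists_nat_pow_eq
    exact ⟨Nat.find h, Nat.find_spec h, fun m hm => Nat.find_min' h hm⟩
  choose idx hs hm using hex
  refine ⟨idx, ⟨?_, ?_⟩, ?_⟩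
  · intro p q h1 h2
    rw [← hs p, ← hs q, h2, h1]
  · intro p
    by_cases hp : rot p = b (src p)
    · right
      constructor
      · apply Nat.le_zero.mp
        apply hm (rot p) 0
        rw [hsrc, pow_zero, Equiv.Perm.one_apply]
        exact hp.symm
      · intro q hq
        -- the cycle closes up after `idx p + 1` steps
        have e2 : (rot ^ (idx p + 1)) (b (src p)) = b (src p) := by
          rw [pow_succ', Equiv.Perm.mul_apply, hs, hp]
        have e3 : ∀ k : ℕ, (rot ^ ((idx p + 1) * k)) (b (src p)) = b (src p) := by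
          intro k
          induction k with
          | zero => rfl
          | succ k ih => rw [mul_add, mul_one, pow_add, Equiv.Perm.mul_apply, e2, ih]
        have hn := hs q
        rw [hq] at hn
        have e4 : (rot ^ (idx q % (idx p + 1))) (b (src p)) = q := by
          conv_rhs => rw [← hn, ← Nat.mod_add_div (idx q) (idx p + 1)]
          rw [pow_add, Equiv.Perm.mul_apply, e3]
        have e5 : idx q ≤ idx q % (idx p + 1) := hm q _ (by rw [hq]; exact e4)
        have e6 : idx q % (idx p + 1) < idx p + 1 := Nat.mod_lt _ (Nat.succ_pos _)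
        omega
    · left
      have e1 := hs (rot p)
      rw [hsrc] at e1
      apply le_antisymm
      · apply hm (rot p)
        rw [hsrc, pow_succ', Equiv.Perm.mul_apply, hs]
      · rcases Nat.eq_zero_or_pos (idx (rot p)) with h0 | h0
        · exfalso
          rw [h0, pow_zero, Equiv.Perm.one_apply] at e1
          exact hp e1.symm
        · obtain ⟨k, hk⟩ := Nat.exists_eq_succ_of_ne_zero h0.ne'
          rw [hk, Nat.succ_eq_add_one, pow_succ', Equiv.Perm.mul_apply] at e1
          have := hm p k (rot.injective e1)
          omega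
  · intro v
    apply Nat.le_zero.mp
    apply hm (b v) 0
    rw [hb, pow_zero, Equiv.Perm.one_apply]

/-- sum over the star of `v` -/
def starSum (z : P → F2) (v : V) : F2 := ∑ q, if src q = v then z q else 0

/-- sum over the darts of the star of `p` which come before `p` -/
def lowSum (idx : P → ℕ) (z : P → F2) (p : P) : F2 :=
  ∑ q, if src q = src p ∧ idx q < idx p then z q else 0

/-- the intersection form -/
def Jf (o : P → Prop) [DecidablePred o] (idx : P → ℕ) (z H : P → F2) : F2 :=
  ∑ p, lowSum src idx z p * H p + ∑ p, if o p then z p * H p else 0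

/-- potential of `z` -/
def potOf (idx : P → ℕ) (z : P → F2) (p : P) : F2 :=
  ∑ q, if src q = src p ∧ idx q ≤ idx p then z q else 0

variable {rot src}

omit [Fintype V] in
lemma potOf_eq {idx : P → ℕ} (hi : IsIdx rot src idx) (z : P → F2) (p : P) :
    potOf src idx z p = lowSum src idx z p + z p := by
  unfold potOf lowSum
  have h : z p = ∑ q, if q = p then z q else 0 := by simp
  conv_rhs => rw [h]
  rw [← Finset.sum_add_distrib]
  apply Finset.sum_congr rfl
  intro q _
  by_cases h1 : q = p
  · subst h1; simp
  · by_cases h2 : src q = src p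
    · have h3 : idx q ≠ idx p := fun h => h1 (hi.inj q p h2 h)
      by_cases h4 : idx q < idx p
      · simp [h1, h2, h4, h4.le]
      · have h5 : ¬ idx q ≤ idx p := by omega
        simp [h1, h4, h5]
    · simp [h1, h2]

lemma potOf_rot {idx : P → ℕ} (hsrc : ∀ p, src (rot p) = src p) (hi : IsIdx rot src idx)
    {z : P → F2} (hz : ∀ v, starSum src z v = 0) (p : P) :
    potOf src idx z (rot p) + potOf src idx z p = z (rot p) := by
  rw [potOf_eq hi z (rot p)]
  have h : lowSum src idx z (rot p) = potOf src idx z p := by
    rcases hi.step p with h1 | ⟨h1, h2⟩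
    · unfold lowSum potOf
      apply Finset.sum_congr rfl
      intro q _
      rw [hsrc, h1]
      simp only [Nat.lt_succ_iff]
    · have e1 : lowSum src idx z (rot p) = 0 := by
        unfold lowSum
        apply Finset.sum_eq_zero
        intro q _
        rw [h1]; simp
      have e2 : potOf src idx z p = 0 := by
        rw [← hz (src p)]
        unfold potOf starSum
        apply Finset.sum_congr rfl
        intro q _
        by_cases hq : src q = src p
        · simp [hq, h2 q hq]
        · simp [hq]
      rw [e1, e2]
  rw [h]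
  have := CharTwo.add_self_eq_zero (potOf src idx z p)
  linear_combination this

lemma cob_potOf {idx : P → ℕ} (hsrc : ∀ p, src (rot p) = src p) (hi : IsIdx rot src idx)
    {z : P → F2} (hz : ∀ v, starSum src z v = 0) : cob rot (potOf src idx z) = z := by
  ext p
  have := potOf_rot hsrc hi hz (rot.symm p)
  rw [Equiv.apply_symm_apply] at this
  rw [cob_apply, this]

omit [DecidableEq P] in
lemma Inv_sameCycle {g : P → F2} (hg : g ∈ Inv (relV rot)) {p q : P} (h : rot.SameCycle p q) :
    g p = g q := by
  obtain ⟨n, hn⟩ := h.exists_nat_pow_eq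
  have : ∀ (n : ℕ) p, g ((rot ^ n) p) = g p := by
    intro n
    induction n with
    | zero => intro p; rfl
    | succ n ih =>
      intro p
      rw [pow_succ', Equiv.Perm.mul_apply, ← hg _ _ rfl, ih]
  rw [← hn, this]

variable {rev}

lemma mem_Zs (hcyc : ∀ p q, src p = src q → rot.SameCycle p q)
    {z : P → F2} (hz : ∀ v, starSum src z v = 0) (hzr : ∀ p, z (rev p) = z p) :
    z ∈ Zs rot rev := by
  rw [Zs, Submodule.mem_inf, mem_orth]
  constructor
  · intro g hg
    have h1 : ∑ p, g p * z p = ∑ v : V, ∑ p, if src p = v then g p * z p else 0 := by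
      rw [Finset.sum_comm]
      apply Finset.sum_congr rfl
      intro p _
      simp
    rw [h1]
    apply Finset.sum_eq_zero
    intro v _
    by_cases hv : ∃ p, src p = v
    · obtain ⟨p0, hp0⟩ := hv
      have h2 : ∑ p, (if src p = v then g p * z p else 0) = g p0 * starSum src z v := by
        unfold starSum
        rw [Finset.mul_sum]
        apply Finset.sum_congr rfl
        intro p _
        by_cases hp : src p = v
        · rw [if_pos hp, if_pos hp, Inv_sameCycle hg (hcyc p p0 (hp.trans hp0.symm))]
        · simp [hp]
      rw [h2, hz, mul_zero]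
    · apply Finset.sum_eq_zero
      intro p _
      rw [if_neg]
      exact fun h => hv ⟨p, h⟩
  · intro p q hpq
    rw [relE] at hpq
    rw [← hpq, hzr]

lemma pair_potOf (o : P → Prop) [DecidablePred o] (hrev : ∀ p, rev (rev p) = p)
    (ho : ∀ p, o (rev p) ↔ ¬ o p) {idx : P → ℕ}
    (hsrc : ∀ p, src (rot p) = src p) (hi : IsIdx rot src idx)
    {z : P → F2} (hz : ∀ v, starSum src z v = 0) {ι : Type*} (H : ι → P → F2)
    (hH : ∀ l p, H l (rev p) = H l p) (l : ι) :
    pair rot rev o H (potOf src idx z) l = Jf src o idx z (H l) := by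
  change (∑ p, if o p then (potOf src idx z p + potOf src idx z (rot.symm (rev p))) * H l p
    else 0) = _
  have h1 : ∀ p, potOf src idx z (rot.symm p) = lowSum src idx z p := by
    intro p
    have e1 := potOf_rot hsrc hi hz (rot.symm p)
    rw [Equiv.apply_symm_apply, potOf_eq hi z p] at e1
    have e2 := CharTwo.add_self_eq_zero (lowSum src idx z p)
    linear_combination e1 - e2
  have h2 : ∀ p, (if o p then (potOf src idx z p + potOf src idx z (rot.symm (rev p))) * H l p
      else 0) = (if o p then lowSum src idx z p * H l p else 0) +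
        (if o p then lowSum src idx z (rev p) * H l (rev p) else 0) +
        (if o p then z p * H l p else 0) := by
    intro p
    rw [h1, potOf_eq hi, hH]
    split_ifs <;> ring
  simp only [h2, Finset.sum_add_distrib]
  rw [sum_o rev hrev o ho (fun p => lowSum src idx z p * H l p)]
  unfold Jf
  congr 1
  rw [← Finset.sum_add_distrib]
  apply Finset.sum_congr rfl
  intro p _
  split_ifs <;> simp

/-- the rank of the intersection matrix of two families of cycles is at most the Euler genus -/
theorem rank_Jf_le (o : P → Prop) [DecidablePred o] (hrev : ∀ p, rev (rev p) = p)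
    (hne : ∀ p, rev p ≠ p) (ho : ∀ p, o (rev p) ↔ ¬ o p) {idx : P → ℕ}
    (hsrc : ∀ p, src (rot p) = src p) (hcyc : ∀ p q, src p = src q → rot.SameCycle p q)
    (hi : IsIdx rot src idx)
    {κ ι : Type*} [Finite ι] (z : κ → P → F2) (H : ι → P → F2)
    (hz : ∀ k v, starSum src (z k) v = 0) (hzr : ∀ k p, z k (rev p) = z k p)
    (hH : ∀ l v, starSum src (H l) v = 0) (hHr : ∀ l p, H l (rev p) = H l p) :
    finrank F2 (Submodule.span F2 (Set.range fun k => (fun l => Jf src o idx (z k) (H l)))) +
      Nat.card (Quot (relV rot)) + Nat.card (Quot (relF rot rev)) ≤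
      Nat.card (Quot (relE rev)) + 2 * Nat.card (Quot (relC rot rev)) := by
  have h1 := rank_le rot rev hrev hne o ho H (fun l => mem_Zs hcyc (hH l) (hHr l))
  have h2 : finrank F2 (Submodule.span F2 (Set.range fun k =>
      (fun l => Jf src o idx (z k) (H l)))) ≤
      finrank F2 ((Pot rot rev).map (pair rot rev o H)) := by
    have : Module.Finite F2 ((Pot rot rev).map (pair rot rev o H)) := inferInstance
    apply Submodule.finrank_mono
    rw [Submodule.span_le]
    rintro _ ⟨k, rfl⟩
    refine ⟨potOf src idx (z k), ?_, ?_⟩
    · change cob rot (potOf src idx (z k)) ∈ Inv (relE rev)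
      rw [cob_potOf hsrc hi (hz k)]
      intro p q hpq
      rw [relE] at hpq
      rw [← hpq, hzr]
    · ext l
      exact pair_potOf o hrev ho hsrc hi (hz k) H hHr l
  omega

end Pool.Agent.H60.IACR
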