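import Pool.Agent.H60.IACR.Graph

/-!
# The explicit drawing: pieces, rotation, and the finite checks
-/

open Finset

namespace Pool.Agent.H60.IACR

/-- number of crossing points on the outer edges -/
def mD : Fin 17 → ℕ := ![5, 5, 5, 0, 5, 1, 0, 0, 1, 1, 0, 0, 0, 0, 0, 1, 0]

/-- number of crossing points on the edge of a dart -/
def crD (d : Dt) : ℕ := if (d.2.2 = 2 ∧ d.1 = 9) ∨ (d.2.2 = 3 ∧ d.1 = 0) then mD d.2.1 else 0

/-- pieces -/
abbrev PS := Σ d : Dt, Fin (crD d + 1)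

/-- the `n`-th piece of `d` -/
def pc (d : Dt) (n : ℕ) : PS := ⟨d, ⟨n % (crD d + 1), Nat.mod_lt _ (Nat.succ_pos _)⟩⟩

/-- reversal of pieces -/
def revS (p : PS) : PS := pc (rv p.1) (crD p.1 - p.2)

/-- rotation at the outer vertices -/
def rotA : Fin 17 → Fin 17 := ![3, 11, 12, 9, 8, 16, 4, 1, 6, 13, 14, 15, 5, 0, 10, 7, 2]
def invA : Fin 17 → Fin 17 := ![13, 7, 16, 0, 6, 12, 8, 15, 4, 3, 14, 1, 2, 9, 10, 11, 5]

/-- rotation at the vertices -/
def rot0 (d : Dt) : Dt := match d.2.2 with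
  | 2 => (d.1, d.2.1, 1)
  | 1 => if d.1 = 0 then (d.1, d.2.1, 0) else (d.1, d.2.1, 3)
  | 0 => (d.1, d.2.1, 2)
  | 3 => if d.1 = 0 then (0, rotA d.2.1, 3) else (d.1, d.2.1, 0)

def inv0 (d : Dt) : Dt := match d.2.2 with
  | 1 => (d.1, d.2.1, 2)
  | 0 => if d.1 = 0 then (d.1, d.2.1, 1) else (d.1, d.2.1, 3)
  | 2 => (d.1, d.2.1, 0)
  | 3 => if d.1 = 0 then (0, invA d.2.1, 3) else (d.1, d.2.1, 1)

/-- the crossings along the outer edges: the other edge, the index of the crossing along the other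
edge, and whether the other edge goes to the left -/
def xt : Fin 17 → List (Fin 17 × ℕ × Bool) :=
  ![[(1, 1, false), (2, 1, false), (9, 1, true), (1, 3, true), (2, 5, true)],
    [(0, 1, true), (4, 2, true), (0, 4, false), (15, 1, true), (4, 4, false)],
    [(0, 2, true), (4, 5, false), (5, 1, true), (4, 1, true), (0, 5, false)],
    [],
    [(2, 4, false), (1, 2, false), (8, 1, true), (1, 5, true), (2, 2, true)],
    [(2, 3, false)], [], [], [(4, 3, false)], [(0, 3, false)], [], [], [], [], [],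
    [(1, 4, false)], []]

def xg (j : Fin 17) (c : ℕ) : Fin 17 × ℕ × Bool := (xt j).getD (c - 1) (0, 0, false)

/-- forward and backward pieces at the `c`-th crossing of the outer edge `j` -/
def fw (j : Fin 17) (c : ℕ) : PS := pc (9, j, 2) c
def bw (j : Fin 17) (c : ℕ) : PS := pc (0, j, 3) (mD j + 1 - c)

/-- rotation of the pieces -/
def rotS (p : PS) : PS :=
  if p.2.val = 0 then pc (rot0 p.1) 0
  else if p.1.2.2 = 2 then
    let x := xg p.1.2.1 p.2
    if x.2.2 then fw x.1 x.2.1 else bw x.1 x.2.1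
  else
    let x := xg p.1.2.1 (mD p.1.2.1 + 1 - p.2)
    if x.2.2 then bw x.1 x.2.1 else fw x.1 x.2.1

def invS (p : PS) : PS :=
  if p.2.val = 0 then pc (inv0 p.1) 0
  else if p.1.2.2 = 2 then
    let x := xg p.1.2.1 p.2
    if x.2.2 then bw x.1 x.2.1 else fw x.1 x.2.1
  else
    let x := xg p.1.2.1 (mD p.1.2.1 + 1 - p.2)
    if x.2.2 then fw x.1 x.2.1 else bw x.1 x.2.1

set_option maxRecDepth 100000

theorem invS_rotS : ∀ p : PS, invS (rotS p) = p := by decide +kernel

theorem rotS_invS : ∀ p : PS, rotS (invS p) = p := by decide +kernel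

theorem revS_revS : ∀ p : PS, revS (revS p) = p := by decide +kernel

theorem revS_ne : ∀ p : PS, revS p ≠ p := by decide +kernel

theorem card_PS : Fintype.card PS = 728 := by decide +kernel

theorem rotS_vertex : ∀ p : PS, p.2.val = 0 → (rotS p).2.val = 0 ∧ sr (rotS p).1 = sr p.1 := by
  decide +kernel

theorem rotS_rotS : ∀ p : PS, 0 < p.2.val → (rotS (rotS p)).1 = rv p.1 ∧
    (rotS (rotS p)).2.val = crD p.1 + 1 - p.2.val := by
  decide +kernel

theorem rotS_other : ∀ p : PS, 0 < p.2.val → (rotS p).1 ≠ p.1 ∧ (rotS p).1 ≠ rv p.1 := by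
  decide +kernel

end Pool.Agent.H60.IACR
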