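import Mathlib

/-!
# The intersection form of a combinatorial map over `F₂`, and its rank
-/

open Module Finset

namespace Pool.Agent.H60.IACR

abbrev F2 := ZMod 2

section inv

variable {P : Type*} [Fintype P]

/-- functions constant on the classes generated by `r` -/
def Inv (r : P → P → Prop) : Submodule F2 (P → F2) where
  carrier := {f | ∀ p q, r p q → f p = f q}
  add_mem' := by
    intro f g hf hg p q h
    simp [hf p q h, hg p q h]
  zero_mem' := by intro p q _; rfl
  smul_mem' := by
    intro c f hf p q h
    simp [hf p q h]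

omit [Fintype P] in
lemma mem_Inv {r : P → P → Prop} {f : P → F2} : f ∈ Inv r ↔ ∀ p q, r p q → f p = f q := Iff.rfl

lemma finrank_Inv (r : P → P → Prop) : finrank F2 (Inv r) = Nat.card (Quot r) := by
  classical
  have : Fintype (Quot r) := Fintype.ofFinite _
  let e : (Quot r → F2) ≃ₗ[F2] Inv r :=
    { toFun := fun g => ⟨fun p => g (Quot.mk r p), fun p q h => by
        simp only; rw [Quot.sound h]⟩
      map_add' := fun _ _ => rfl
      map_smul' := fun _ _ => rfl
      invFun := fun f => Quot.lift f.1 f.2
      left_inv := by
        intro g; ext x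
        induction x using Quot.ind with
        | mk p => rfl
      right_inv := by
        intro f; rfl }
  rw [← e.finrank_eq, Module.finrank_fintype_fun_eq_card, Nat.card_eq_fintype_card]

/-- the standard bilinear form -/
noncomputable def dotB : LinearMap.BilinForm F2 (P → F2) := dotProductBilin F2 F2

lemma dotB_apply (f g : P → F2) : dotB f g = ∑ p, f p * g p := rfl

lemma dotB_refl : (dotB : LinearMap.BilinForm F2 (P → F2)).IsRefl := by
  intro f g h
  rw [dotB_apply] at h ⊢
  rw [← h]
  exact Finset.sum_congr rfl fun p _ => mul_comm _ _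

lemma dotB_orth_top [DecidableEq P] :
    (dotB : LinearMap.BilinForm F2 (P → F2)).orthogonal ⊤ = ⊥ := by
  rw [eq_bot_iff]
  intro f hf
  rw [LinearMap.BilinForm.mem_orthogonal_iff] at hf
  rw [Submodule.mem_bot]
  ext p
  have := hf (Pi.single p 1) Submodule.mem_top
  rw [dotB_apply] at this
  simpa [Pi.single_apply] using this

lemma finrank_orth [DecidableEq P] (W : Submodule F2 (P → F2)) :
    finrank F2 W + finrank F2 (dotB.orthogonal W : Submodule F2 (P → F2)) = Fintype.card P := by
  have h := LinearMap.BilinForm.finrank_add_finrank_orthogonal (dotB_refl (P := P)) W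
  rw [dotB_orth_top, inf_bot_eq, finrank_bot, add_zero, Module.finrank_fintype_fun_eq_card] at h
  exact h

lemma mem_orth {W : Submodule F2 (P → F2)} {f : P → F2} :
    f ∈ (dotB.orthogonal W : Submodule F2 (P → F2)) ↔ ∀ g ∈ W, ∑ p, g p * f p = 0 := by
  rw [LinearMap.BilinForm.mem_orthogonal_iff]
  rfl

end inv

section map

variable {P : Type*} [Fintype P] [DecidableEq P] (rot rev : Equiv.Perm P)

/-- same point -/
abbrev relV (p q : P) : Prop := rot p = q
/-- same edge -/
abbrev relE (p q : P) : Prop := rev p = q
/-- same face -/
abbrev relF (p q : P) : Prop := rev (rot p) = q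
/-- same component -/
abbrev relC (p q : P) : Prop := rot p = q ∨ rev p = q

omit [DecidableEq P] in
lemma inf_VE : Inv (relV rot) ⊓ Inv (relE rev) = Inv (relC rot rev) := by
  ext f
  simp only [Submodule.mem_inf, mem_Inv]
  constructor
  · rintro ⟨h1, h2⟩ p q (h | h)
    · exact h1 p q h
    · exact h2 p q h
  · intro h
    exact ⟨fun p q hpq => h p q (Or.inl hpq), fun p q hpq => h p q (Or.inr hpq)⟩

omit [DecidableEq P] in
lemma inf_VF : Inv (relV rot) ⊓ Inv (relF rot rev) = Inv (relC rot rev) := by
  ext f
  simp only [Submodule.mem_inf, mem_Inv]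
  constructor
  · rintro ⟨h1, h2⟩ p q (h | h)
    · exact h1 p q h
    · have h3 := h2 (rot.symm p) (rev p) (by simp [relF])
      have h4 := h1 (rot.symm p) p (by simp [relV])
      rw [← h, ← h3, h4]
  · intro h
    refine ⟨fun p q hpq => h p q (Or.inl hpq), fun p q hpq => ?_⟩
    rw [h p (rot p) (Or.inl rfl), h (rot p) (rev (rot p)) (Or.inr rfl)]
    rw [← hpq]

variable (hrev : ∀ p, rev (rev p) = p) (hne : ∀ p, rev p ≠ p)

include hrev hne in
lemma orth_E : (dotB.orthogonal (Inv (relE rev)) : Submodule F2 (P → F2)) = Inv (relE rev) := by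
  ext f
  rw [mem_orth, mem_Inv]
  constructor
  · intro h p q hpq
    rw [relE] at hpq
    have h1 := h (Pi.single p 1 + Pi.single q 1) (by
      intro a b hab
      rw [relE] at hab
      simp only [Pi.add_apply, Pi.single_apply]
      have e1 : (b = p) ↔ (a = q) := by
        constructor
        · intro hb; rw [← hpq, ← hb, ← hab, hrev]
        · intro ha; rw [← hab, ha, ← hpq, hrev]
      have e2 : (b = q) ↔ (a = p) := by
        constructor
        · intro hb; apply rev.injective; rw [hab, hb, hpq]
        · intro ha; rw [← hab, ha, hpq]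
      simp only [e1, e2]
      ring)
    have h2 : ∑ x, (Pi.single p (1 : F2) + Pi.single q (1 : F2) : P → F2) x * f x = f p + f q := by
      simp [add_mul, Finset.sum_add_distrib, Pi.single_apply]
    rw [h2] at h1
    exact CharTwo.add_eq_zero.mp h1
  · intro h g hg
    apply Finset.sum_involution (fun p _ => rev p)
    · intro p _
      rw [← h p (rev p) rfl, ← hg p (rev p) rfl]
      exact CharTwo.add_self_eq_zero _
    · intro p _ _; exact hne p
    · intro p _; exact Finset.mem_univ _
    · intro p _; exact hrev p

include hrev hne in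
lemma card_P : Fintype.card P = 2 * Nat.card (Quot (relE rev)) := by
  have h := finrank_orth (Inv (relE rev))
  rw [orth_E rev hrev hne, finrank_Inv] at h
  omega

/-- cycle space -/
noncomputable def Zs : Submodule F2 (P → F2) := dotB.orthogonal (Inv (relV rot)) ⊓ Inv (relE rev)

include hrev hne in
lemma finrank_Z : finrank F2 (Zs rot rev) + Nat.card (Quot (relV rot)) =
    Nat.card (Quot (relE rev)) + Nat.card (Quot (relC rot rev)) := by
  have h1 : Zs rot rev = dotB.orthogonal (Inv (relV rot) ⊔ Inv (relE rev)) := by
    ext f
    rw [Zs, Submodule.mem_inf, mem_orth, mem_orth]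
    constructor
    · rintro ⟨h1, h2⟩ g hg
      rw [← orth_E rev hrev hne, mem_orth] at h2
      obtain ⟨a, ha, b, hb, rfl⟩ := Submodule.mem_sup.mp hg
      simp only [Pi.add_apply, add_mul, Finset.sum_add_distrib]
      rw [h1 a ha, h2 b hb, add_zero]
    · intro h
      refine ⟨fun g hg => h g (Submodule.mem_sup_left hg), ?_⟩
      rw [← orth_E rev hrev hne, mem_orth]
      exact fun g hg => h g (Submodule.mem_sup_right hg)
  have h2 := finrank_orth (Inv (relV rot) ⊔ Inv (relE rev))
  rw [← h1, card_P rev hrev hne] at h2
  have h3 := Submodule.finrank_sup_add_finrank_inf_eq (Inv (relV rot)) (Inv (relE rev))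
  rw [inf_VE, finrank_Inv, finrank_Inv, finrank_Inv] at h3
  omega

/-- coboundary at the points -/
noncomputable def cob : (P → F2) →ₗ[F2] (P → F2) where
  toFun G := fun p => G p + G (rot.symm p)
  map_add' := by intro G H; ext p; simp; ring
  map_smul' := by intro c G; ext p; simp; ring

omit [Fintype P] [DecidableEq P] in
lemma cob_apply (G : P → F2) (p : P) : cob rot G p = G p + G (rot.symm p) := rfl

lemma ker_cob : LinearMap.ker (cob rot) = Inv (relV rot) := by
  ext G
  rw [LinearMap.mem_ker, mem_Inv]
  constructor
  · intro h p q hpq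
    have := congrFun h q
    rw [cob_apply, ← hpq] at this
    simp only [Equiv.symm_apply_apply, Pi.zero_apply] at this
    rw [← hpq]
    exact (CharTwo.add_eq_zero.mp this).symm
  · intro h
    ext p
    rw [cob_apply, h (rot.symm p) p (by simp [relV])]
    exact CharTwo.add_self_eq_zero _

lemma range_cob : LinearMap.range (cob rot) = dotB.orthogonal (Inv (relV rot)) := by
  have h1 : LinearMap.range (cob rot) ≤ dotB.orthogonal (Inv (relV rot)) := by
    rintro _ ⟨G, rfl⟩
    rw [mem_orth]
    intro g hg
    simp only [cob_apply, mul_add, Finset.sum_add_distrib]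
    have : ∑ p, g p * G (rot.symm p) = ∑ p, g p * G p := by
      rw [← Equiv.sum_comp rot (fun p => g p * G (rot.symm p))]
      apply Finset.sum_congr rfl
      intro p _
      rw [Equiv.symm_apply_apply, ← hg p (rot p) rfl]
    rw [this]
    exact CharTwo.add_self_eq_zero _
  apply Submodule.eq_of_le_of_finrank_eq h1
  have h2 := LinearMap.finrank_range_add_finrank_ker (cob rot)
  have h3 := finrank_orth (Inv (relV rot))
  rw [ker_cob, Module.finrank_fintype_fun_eq_card] at h2
  omega

/-- potentials of cycles -/
noncomputable def Pot : Submodule F2 (P → F2) := (Inv (relE rev)).comap (cob rot)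

lemma finrank_of_le {K V W : Type*} [Field K] [AddCommGroup V] [Module K V] [AddCommGroup W]
    [Module K W] [FiniteDimensional K V] (f : V →ₗ[K] W) (S : Submodule K V) (T : Submodule K V)
    (hT : T ≤ S) (hf : T ≤ LinearMap.ker f) :
    finrank K (S.map f) + finrank K T ≤ finrank K S := by
  have h1 := LinearMap.finrank_range_add_finrank_ker (f.domRestrict S)
  rw [LinearMap.range_domRestrict] at h1
  have h2 : finrank K T ≤ finrank K (LinearMap.ker (f.domRestrict S)) := by
    rw [← (Submodule.comapSubtypeEquivOfLe hT).finrank_eq]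
    apply Submodule.finrank_mono
    intro x hx
    exact hf hx
  omega

lemma finrank_le_of_ker {K V W : Type*} [Field K] [AddCommGroup V] [Module K V] [AddCommGroup W]
    [Module K W] [FiniteDimensional K V] (f : V →ₗ[K] W) (S : Submodule K V)
    (hS : LinearMap.ker f ≤ S) :
    finrank K S = finrank K (S.map f) + finrank K (LinearMap.ker f) := by
  have h1 := LinearMap.finrank_range_add_finrank_ker (f.domRestrict S)
  rw [LinearMap.range_domRestrict] at h1
  have h2 : finrank K (LinearMap.ker f) = finrank K (LinearMap.ker (f.domRestrict S)) := by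
    rw [← (Submodule.comapSubtypeEquivOfLe hS).finrank_eq]
    rfl
  omega

include hrev hne in
lemma finrank_Pot : finrank F2 (Pot rot rev) =
    Nat.card (Quot (relE rev)) + Nat.card (Quot (relC rot rev)) := by
  have h1 : LinearMap.ker (cob rot) ≤ Pot rot rev := by
    intro G hG
    rw [Pot, Submodule.mem_comap, LinearMap.mem_ker.mp hG]
    exact Submodule.zero_mem _
  rw [finrank_le_of_ker (cob rot) _ h1, Pot, Submodule.map_comap_eq, range_cob, ker_cob,
    finrank_Inv]
  exact finrank_Z rot rev hrev hne

variable (o : P → Prop) [DecidablePred o] (ho : ∀ p, o (rev p) ↔ ¬ o p)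

omit [DecidableEq P] in
include hrev ho in
lemma sum_o (f : P → F2) : ∑ p, (if o p then f (rev p) else 0) = ∑ p, if o p then 0 else f p := by
  rw [← Equiv.sum_comp rev]
  apply Finset.sum_congr rfl
  intro p _
  rw [hrev]
  by_cases h : o p
  · simp [ho, h]
  · simp [ho, h]

/-- pairing of a potential with a cycle -/
noncomputable def pair {ι : Type*} (H : ι → P → F2) : (P → F2) →ₗ[F2] (ι → F2) where
  toFun G := fun l => ∑ p, if o p then (G p + G (rot.symm (rev p))) * H l p else 0
  map_add' := by
    intro G G'; ext l
    simp only [Pi.add_apply, ← Finset.sum_add_distrib]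
    apply Finset.sum_congr rfl
    intro p _
    split_ifs <;> ring
  map_smul' := by
    intro c G; ext l
    simp only [Pi.smul_apply, smul_eq_mul, RingHom.id_apply, Finset.mul_sum]
    apply Finset.sum_congr rfl
    intro p _
    split_ifs <;> ring

include hrev hne ho in
/-- the rank of the intersection form is at most the Euler genus -/
theorem rank_le {ι : Type*} [Finite ι] (H : ι → P → F2) (hH : ∀ l, H l ∈ Zs rot rev) :
    finrank F2 ((Pot rot rev).map (pair rot rev o H)) + Nat.card (Quot (relV rot)) +
      Nat.card (Quot (relF rot rev)) ≤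
      Nat.card (Quot (relE rev)) + 2 * Nat.card (Quot (relC rot rev)) := by
  have hW : Inv (relV rot) ⊔ Inv (relF rot rev) ≤ Pot rot rev := by
    apply sup_le
    · intro G hG
      rw [← ker_cob, LinearMap.mem_ker] at hG
      rw [Pot, Submodule.mem_comap, hG]
      exact Submodule.zero_mem _
    · intro G hG
      rw [Pot, Submodule.mem_comap]
      intro p q hpq
      rw [relE] at hpq
      subst hpq
      rw [cob_apply, cob_apply]
      have h1 := hG (rot.symm (rev p)) p (by simp [relF, hrev])
      have h2 := hG (rot.symm p) (rev p) (by simp [relF])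
      rw [h1, h2, add_comm]
  have hK : Inv (relV rot) ⊔ Inv (relF rot rev) ≤ LinearMap.ker (pair rot rev o H) := by
    apply sup_le
    · intro G hG
      rw [LinearMap.mem_ker]
      ext l
      obtain ⟨h1, h2⟩ := Submodule.mem_inf.mp (hH l)
      rw [mem_orth] at h1
      have h3 := h1 G hG
      change (∑ p, if o p then (G p + G (rot.symm (rev p))) * H l p else 0) = 0
      have h4 : ∀ p, (if o p then (G p + G (rot.symm (rev p))) * H l p else 0) =
          (if o p then G p * H l p else 0) + (if o p then G (rev p) * H l (rev p) else 0) := by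
        intro p
        have e1 := hG (rot.symm (rev p)) (rev p) (by simp [relV])
        have e2 := h2 p (rev p) rfl
        rw [e1, ← e2]
        split_ifs <;> ring
      simp only [h4, Finset.sum_add_distrib]
      rw [sum_o rev hrev o ho (fun p => G p * H l p), ← Finset.sum_add_distrib]
      refine Eq.trans (Finset.sum_congr rfl fun p _ => ?_) h3
      split_ifs <;> simp
    · intro G hG
      rw [LinearMap.mem_ker]
      ext l
      change (∑ p, if o p then (G p + G (rot.symm (rev p))) * H l p else 0) = 0
      apply Finset.sum_eq_zero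
      intro p _
      have h1 := hG (rot.symm (rev p)) p (by simp [relF, hrev])
      rw [h1, CharTwo.add_self_eq_zero, zero_mul, ite_self]
  have h1 := finrank_of_le (pair rot rev o H) (Pot rot rev) _ hW hK
  have h2 := Submodule.finrank_sup_add_finrank_inf_eq (Inv (relV rot)) (Inv (relF rot rev))
  rw [inf_VF, finrank_Inv, finrank_Inv, finrank_Inv] at h2
  rw [finrank_Pot rot rev hrev hne] at h1
  omega

end map

end Pool.Agent.H60.IACR
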